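import Pool.Agent.helper18.DH.SpecM
import Pool.Agent.helper13.D2.SZC

/-!
# Project dh: MFS, the flow step
-/

set_option autoImplicit false

open Filter Topology MeasureTheory
open scoped commutatorElement

namespace Pool.Agent.helper90.DH

open Pool.Agent.helper64.D2

theorem MFS_lip {f : ℝ → ℝ} (hf : Differentiable ℝ f) {C : ℝ} (h : ∀ x, |deriv f x| ≤ C) (u v : ℝ) : |f u - f v| ≤ C * |u - v| := by
  have h1 := Convex.norm_image_sub_le_of_norm_deriv_le (𝕜 := ℝ) (f := f) (C := C) (s := Set.univ) (fun x _ => hf x) (fun x _ => by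
    rw [Real.norm_eq_abs]
    exact h x) convex_univ (Set.mem_univ v) (Set.mem_univ u)
  simpa [Real.norm_eq_abs] using h1

theorem MFS_G {g : DD} {γ : ℝ} (h : Sz g γ) (u v : ℝ) : |(ev g u - ev g v) - (u - v)| ≤ γ * |u - v| := by
  have h1 : ∀ y : ℝ, HasDerivAt (fun z : ℝ => ev g z - z) (deriv (ev g) y - 1) y := fun y =>
    ((SZC_d1 g) y).hasDerivAt.sub (hasDerivAt_id y)
  have h2 := MFS_lip (f := fun z : ℝ => ev g z - z) (fun y => (h1 y).differentiableAt) (C := γ) (fun y => by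
    rw [(h1 y).deriv]
    exact SZC_der g γ h y) u v
  have h3 : (ev g u - ev g v) - (u - v) = (ev g u - u) - (ev g v - v) := by ring
  rw [h3]
  exact h2

/-- the inverse of a map which is near the identity. -/
theorem MFS_inv {g : DD} {a : ℝ} (h : ∀ u v, |(ev g u - ev g v) - (u - v)| ≤ a * |u - v|) (ha0 : 0 ≤ a) (ha : a ≤ 1 / 2) (x y : ℝ) :
    |ev g⁻¹ x - ev g⁻¹ y| ≤ (1 + 2 * a) * |x - y| := by
  have h1 := h (ev g⁻¹ x) (ev g⁻¹ y)
  rw [ev_inv', ev_inv'] at h1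
  have h2 : |ev g⁻¹ x - ev g⁻¹ y| ≤ |x - y| + a * |ev g⁻¹ x - ev g⁻¹ y| := by
    have h3 : ev g⁻¹ x - ev g⁻¹ y = (x - y) - ((x - y) - (ev g⁻¹ x - ev g⁻¹ y)) := by ring
    have h4 := abs_sub (x - y) ((x - y) - (ev g⁻¹ x - ev g⁻¹ y))
    rw [← h3] at h4
    linarith
  have h5 : 0 ≤ |ev g⁻¹ x - ev g⁻¹ y| := abs_nonneg _
  have h6 : (1 + 2 * a) * |ev g⁻¹ x - ev g⁻¹ y| ≤ (1 + 2 * a) * (|x - y| + a * |ev g⁻¹ x - ev g⁻¹ y|) :=
    mul_le_mul_of_nonneg_left h2 (by linarith)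
  have h7 : 0 ≤ a * (1 - 2 * a) * |ev g⁻¹ x - ev g⁻¹ y| := mul_nonneg (mul_nonneg ha0 (by linarith)) h5
  nlinarith

theorem MFS : MFS_stmt := by
  refine ⟨100, by norm_num, ?_⟩
  intro q Y Y' G Q Q' R R' ε d L γ e hq hY hY' hε hγ hd hK hG hQ hQ' hR hR' he
  have hq1 : (1 : ℝ) ≤ q := by exact_mod_cast hq
  have hqγ : (q : ℝ) * γ ≤ 1 / 100 := by
    have : 0 ≤ (q : ℝ) * d := by positivity
    linarith
  have hqd : (q : ℝ) * d ≤ 1 / 100 := by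
    have : 0 ≤ (q : ℝ) * γ := by positivity
    linarith
  have hγ1 : γ ≤ 1 / 100 := by nlinarith
  have hd1 : d ≤ 1 / 100 := by nlinarith
  have he0 : 0 ≤ e := (abs_nonneg _).trans (he 0 (by omega) 0)
  -- the flows
  have lipY : ∀ k < q, ∀ u v : ℝ, |Y k u - Y k v| ≤ d * |u - v| := by
    intro k hk u v
    exact MFS_lip ((hY k hk).1.differentiable (by norm_num)) (fun x => ((hY k hk).2.2 x).2.1) u v
  have lipY' : ∀ k < q, ∀ u v : ℝ, |Y' k u - Y' k v| ≤ d * |u - v| := by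
    intro k hk u v
    exact MFS_lip ((hY' k hk).1.differentiable (by norm_num)) (fun x => ((hY' k hk).2.2 x).2.1) u v
  have nearQ : ∀ (Z : ℕ → ℝ → ℝ) (P : ℕ → DD), (∀ k < q, ∀ u v : ℝ, |Z k u - Z k v| ≤ d * |u - v|) → IsQ q Z P → ∀ i ≤ q, ∀ u v : ℝ,
      |(ev (P i) u - ev (P i) v) - (u - v)| ≤ (q * d) * |u - v| := by
    intro Z P hZ hP i hi u v
    rw [hP i hi u, hP i hi v]
    have h1 : u + ∑ k ∈ Finset.Ico i q, Z k u - (v + ∑ k ∈ Finset.Ico i q, Z k v) - (u - v) = ∑ k ∈ Finset.Ico i q, (Z k u - Z k v) := by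
      rw [Finset.sum_sub_distrib]
      ring
    rw [h1]
    refine (Finset.abs_sum_le_sum_abs _ _).trans ?_
    have h2 : ∑ k ∈ Finset.Ico i q, |Z k u - Z k v| ≤ ∑ _k ∈ Finset.Ico i q, d * |u - v| :=
      Finset.sum_le_sum fun k hk => hZ k (Finset.mem_Ico.1 hk).2 u v
    refine h2.trans ?_
    rw [Finset.sum_const, Nat.card_Ico, nsmul_eq_mul]
    have h3 : ((q - i : ℕ) : ℝ) ≤ q := by exact_mod_cast Nat.sub_le q i
    have h4 : 0 ≤ d * |u - v| := by positivity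
    nlinarith
  have nQ := nearQ Y Q lipY hQ
  have nQ' := nearQ Y' Q' lipY' hQ'
  have lipφ : ∀ i ≤ q, ∀ x y : ℝ, |ev (Q i)⁻¹ x - ev (Q i)⁻¹ y| ≤ (1 + 2 * (q * d)) * |x - y| := fun i hi x y =>
    MFS_inv (nQ i hi) (by positivity) (by linarith) x y
  have dQ : ∀ i ≤ q, ∀ x, |ev (Q' i) x - ev (Q i) x| ≤ q * e := by
    intro i hi x
    rw [hQ i hi x, hQ' i hi x]
    have h1 : x + ∑ k ∈ Finset.Ico i q, Y' k x - (x + ∑ k ∈ Finset.Ico i q, Y k x) = ∑ k ∈ Finset.Ico i q, (Y' k x - Y k x) := by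
      rw [Finset.sum_sub_distrib]
      ring
    rw [h1]
    refine (Finset.abs_sum_le_sum_abs _ _).trans ?_
    have h2 : ∑ k ∈ Finset.Ico i q, |Y' k x - Y k x| ≤ ∑ _k ∈ Finset.Ico i q, e :=
      Finset.sum_le_sum fun k hk => he k (Finset.mem_Ico.1 hk).2 x
    refine h2.trans ?_
    rw [Finset.sum_const, Nat.card_Ico, nsmul_eq_mul]
    have h3 : ((q - i : ℕ) : ℝ) ≤ q := by exact_mod_cast Nat.sub_le q i
    nlinarith
  have dφ : ∀ i ≤ q, ∀ x, |ev (Q' i)⁻¹ x - ev (Q i)⁻¹ x| ≤ 2 * (q * e) := by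
    intro i hi x
    have h1 : ev (Q' i)⁻¹ x = ev (Q i)⁻¹ (ev (Q i) (ev (Q' i)⁻¹ x)) := (ev_inv _ _).symm
    have h2 := lipφ i hi (ev (Q i) (ev (Q' i)⁻¹ x)) x
    rw [← h1] at h2
    have h3 := dQ i hi (ev (Q' i)⁻¹ x)
    rw [ev_inv', abs_sub_comm] at h3
    refine h2.trans ?_
    exact mul_le_mul (by linarith) h3 (abs_nonneg _) (by norm_num)
  -- the maps F
  have evF : ∀ (Z : ℕ → ℝ → ℝ) (P : ℕ → DD), IsQ q Z P → ∀ i < q, ∀ x, ev (P i * (P (i + 1))⁻¹) x = x + Z i (ev (P (i + 1))⁻¹ x) := by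
    intro Z P hP i hi x
    have h0 : ev (P i) (ev (P (i + 1))⁻¹ x) = ev (P (i + 1))⁻¹ x + ∑ k ∈ Finset.Ico i q, Z k (ev (P (i + 1))⁻¹ x) := hP i hi.le _
    have h1 : ev (P (i + 1)) (ev (P (i + 1))⁻¹ x) = ev (P (i + 1))⁻¹ x + ∑ k ∈ Finset.Ico (i + 1) q, Z k (ev (P (i + 1))⁻¹ x) := hP (i + 1) hi _
    rw [ev_inv'] at h1
    rw [ev_mul, h0, Finset.sum_eq_sum_Ico_succ_bot hi]
    linarith
  have lipF : ∀ i < q, ∀ u v : ℝ, |ev (Q i * (Q (i + 1))⁻¹) u - ev (Q i * (Q (i + 1))⁻¹) v| ≤ (1 + 2 * d) * |u - v| := by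
    intro i hi u v
    rw [evF Y Q hQ i hi u, evF Y Q hQ i hi v]
    have h1 : u + Y i (ev (Q (i + 1))⁻¹ u) - (v + Y i (ev (Q (i + 1))⁻¹ v)) = (u - v) + (Y i (ev (Q (i + 1))⁻¹ u) - Y i (ev (Q (i + 1))⁻¹ v)) := by ring
    rw [h1]
    refine (abs_add_le _ _).trans ?_
    have h2 := lipY i hi (ev (Q (i + 1))⁻¹ u) (ev (Q (i + 1))⁻¹ v)
    have h3 := lipφ (i + 1) hi u v
    have h4 : 0 ≤ |u - v| := abs_nonneg _
    have h5 : d * |ev (Q (i + 1))⁻¹ u - ev (Q (i + 1))⁻¹ v| ≤ d * (2 * |u - v|) := by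
      refine mul_le_mul_of_nonneg_left (h3.trans ?_) hd
      nlinarith
    linarith
  have dF : ∀ i < q, ∀ x, |ev (Q' i * (Q' (i + 1))⁻¹) x - ev (Q i * (Q (i + 1))⁻¹) x| ≤ 2 * e := by
    intro i hi x
    rw [evF Y Q hQ i hi x, evF Y' Q' hQ' i hi x]
    have h1 : x + Y' i (ev (Q' (i + 1))⁻¹ x) - (x + Y i (ev (Q (i + 1))⁻¹ x)) =
        (Y' i (ev (Q' (i + 1))⁻¹ x) - Y i (ev (Q' (i + 1))⁻¹ x)) + (Y i (ev (Q' (i + 1))⁻¹ x) - Y i (ev (Q (i + 1))⁻¹ x)) := by ring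
    rw [h1]
    refine (abs_add_le _ _).trans ?_
    have h2 := he i hi (ev (Q' (i + 1))⁻¹ x)
    have h3 := lipY i hi (ev (Q' (i + 1))⁻¹ x) (ev (Q (i + 1))⁻¹ x)
    have h4 : d * |ev (Q' (i + 1))⁻¹ x - ev (Q (i + 1))⁻¹ x| ≤ d * (2 * (q * e)) := mul_le_mul_of_nonneg_left (dφ (i + 1) hi x) hd
    have h5 : d * (2 * (q * e)) = 2 * (q * d) * e := by ring
    rw [h5] at h4
    nlinarith
  -- the conjugators
  have lipG : ∀ i < q, ∀ u v : ℝ, |ev (G i) u - ev (G i) v| ≤ (1 + γ) * |u - v| := by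
    intro i hi u v
    have h1 := MFS_G (hG i hi) u v
    have h2 : ev (G i) u - ev (G i) v = ((ev (G i) u - ev (G i) v) - (u - v)) + (u - v) := by ring
    rw [h2]
    refine (abs_add_le _ _).trans ?_
    linarith
  have lipGi : ∀ i < q, ∀ u v : ℝ, |ev (G i)⁻¹ u - ev (G i)⁻¹ v| ≤ (1 + 2 * γ) * |u - v| := fun i hi u v =>
    MFS_inv (MFS_G (hG i hi)) hγ (by linarith) u v
  obtain ⟨Λ, hΛ⟩ : ∃ Λ : ℝ, Λ = (1 + 2 * γ) * (1 + 2 * d) * (1 + γ) := ⟨_, rfl⟩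
  have hΛ1 : 1 ≤ Λ := by
    rw [hΛ]
    have h1 : 1 ≤ (1 + 2 * γ) * (1 + 2 * d) := by nlinarith
    nlinarith
  have hΛq : Λ ^ q ≤ 2 := by
    have h1 : Λ ≤ Real.exp (3 * γ + 2 * d) := by
      have a1 := Real.add_one_le_exp (2 * γ)
      have a2 := Real.add_one_le_exp (2 * d)
      have a3 := Real.add_one_le_exp γ
      rw [show 3 * γ + 2 * d = 2 * γ + 2 * d + γ by ring, Real.exp_add, Real.exp_add, hΛ]
      refine mul_le_mul (mul_le_mul (by linarith) (by linarith) (by positivity) (Real.exp_pos _).le) (by linarith) (by positivity) (by positivity)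
    have h2 : Λ ^ q ≤ Real.exp (q * (3 * γ + 2 * d)) := by
      rw [Real.exp_nat_mul]
      exact pow_le_pow_left₀ (by linarith) h1 q
    have h3 : Real.exp (q * (3 * γ + 2 * d)) ≤ Real.exp (1 / 2) := Real.exp_le_exp.2 (by nlinarith)
    have h4 : Real.exp (1 / 2) ≤ 2 := by
      have h5 := Real.add_one_le_exp (-(1 / 2 : ℝ))
      have h6 : Real.exp (1 / 2) * Real.exp (-(1 / 2)) = 1 := by
        rw [← Real.exp_add]
        simp
      have h7 := Real.exp_pos (1 / 2 : ℝ)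
      nlinarith
    linarith
  -- the partial residuals
  have dR : ∀ j ≤ q, ∀ x, |ev (R' (q - j)) x - ev (R (q - j)) x| ≤ 4 * e * j * Λ ^ j := by
    intro j
    induction j with
    | zero =>
      intro _ x
      rw [Nat.sub_zero, hR.1, hR'.1]
      simp
    | succ j ih =>
      intro hj x
      obtain ⟨i, hi⟩ : ∃ i, i = q - (j + 1) := ⟨_, rfl⟩
      have hi1 : i + 1 = q - j := by omega
      have hiq : i < q := by omega
      have ih' := ih (by omega) x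
      rw [← hi1] at ih'
      rw [← hi, hR.2 i hiq, hR'.2 i hiq]
      have e1 : ev ((G i)⁻¹ * (Q' i * (Q' (i + 1))⁻¹) * G i * R' (i + 1)) x =
        ev (G i)⁻¹ (ev (Q' i * (Q' (i + 1))⁻¹) (ev (G i) (ev (R' (i + 1)) x))) := rfl
      have e2 : ev ((G i)⁻¹ * (Q i * (Q (i + 1))⁻¹) * G i * R (i + 1)) x =
        ev (G i)⁻¹ (ev (Q i * (Q (i + 1))⁻¹) (ev (G i) (ev (R (i + 1)) x))) := rfl
      rw [e1, e2]
      set a' := ev (R' (i + 1)) x with ha'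
      set a := ev (R (i + 1)) x with ha
      have h1 := lipGi i hiq (ev (Q' i * (Q' (i + 1))⁻¹) (ev (G i) a')) (ev (Q i * (Q (i + 1))⁻¹) (ev (G i) a))
      have h2 : |ev (Q' i * (Q' (i + 1))⁻¹) (ev (G i) a') - ev (Q i * (Q (i + 1))⁻¹) (ev (G i) a)| ≤
          2 * e + (1 + 2 * d) * ((1 + γ) * |a' - a|) := by
        have h3 : ev (Q' i * (Q' (i + 1))⁻¹) (ev (G i) a') - ev (Q i * (Q (i + 1))⁻¹) (ev (G i) a) =
          (ev (Q' i * (Q' (i + 1))⁻¹) (ev (G i) a') - ev (Q i * (Q (i + 1))⁻¹) (ev (G i) a')) +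
            (ev (Q i * (Q (i + 1))⁻¹) (ev (G i) a') - ev (Q i * (Q (i + 1))⁻¹) (ev (G i) a)) := by ring
        rw [h3]
        refine (abs_add_le _ _).trans (add_le_add (dF i hiq _) ?_)
        refine (lipF i hiq _ _).trans ?_
        exact mul_le_mul_of_nonneg_left (lipG i hiq a' a) (by positivity)
      have h4 : (1 + 2 * γ) * |ev (Q' i * (Q' (i + 1))⁻¹) (ev (G i) a') - ev (Q i * (Q (i + 1))⁻¹) (ev (G i) a)| ≤
          (1 + 2 * γ) * (2 * e + (1 + 2 * d) * ((1 + γ) * |a' - a|)) := mul_le_mul_of_nonneg_left h2 (by positivity)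
      have h5 : (1 + 2 * γ) * (2 * e + (1 + 2 * d) * ((1 + γ) * |a' - a|)) = (1 + 2 * γ) * (2 * e) + Λ * |a' - a| := by
        rw [hΛ]
        ring
      have h6 : (1 + 2 * γ) * (2 * e) ≤ 4 * e := by nlinarith
      have h7 : Λ * |a' - a| ≤ Λ * (4 * e * j * Λ ^ j) := mul_le_mul_of_nonneg_left ih' (by linarith)
      have h8 : 4 * e ≤ 4 * e * Λ ^ (j + 1) := by
        have : 1 ≤ Λ ^ (j + 1) := one_le_pow₀ hΛ1
        nlinarith
      have h9 : Λ * (4 * e * j * Λ ^ j) + 4 * e * Λ ^ (j + 1) = 4 * e * ((j + 1 : ℕ) : ℝ) * Λ ^ (j + 1) := by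
        push_cast
        ring
      linarith
  have dR2 : ∀ i ≤ q, ∀ x, |ev (R' i) x - ev (R i) x| ≤ 8 * (q * e) := by
    intro i hi x
    have h1 := dR (q - i) (Nat.sub_le q i) x
    rw [Nat.sub_sub_self hi] at h1
    refine h1.trans ?_
    have h2 : ((q - i : ℕ) : ℝ) ≤ q := by exact_mod_cast Nat.sub_le q i
    have h3 : Λ ^ (q - i) ≤ Λ ^ q := pow_le_pow_right₀ hΛ1 (Nat.sub_le q i)
    have h4 : Λ ^ (q - i) ≤ 2 := h3.trans hΛq
    have h5 : 4 * e * ((q - i : ℕ) : ℝ) ≤ 4 * e * q := mul_le_mul_of_nonneg_left h2 (by positivity)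
    have h6 : 0 ≤ Λ ^ (q - i) := by positivity
    have h7 : 4 * e * ((q - i : ℕ) : ℝ) * Λ ^ (q - i) ≤ 4 * e * q * 2 := mul_le_mul h5 h4 h6 (by positivity)
    linarith
  intro i hi x
  have hE : |ev (G i * R' (i + 1)) x - ev (G i * R (i + 1)) x| ≤ 16 * (q * e) := by
    rw [ev_mul, ev_mul]
    have h1 := lipG i hi (ev (R' (i + 1)) x) (ev (R (i + 1)) x)
    have h2 := dR2 (i + 1) hi x
    have h3 : (1 + γ) * |ev (R' (i + 1)) x - ev (R (i + 1)) x| ≤ 2 * (8 * (q * e)) :=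
      mul_le_mul (by linarith) h2 (abs_nonneg _) (by norm_num)
    linarith
  have hqe : 0 ≤ (q : ℝ) * e := by positivity
  refine ⟨by nlinarith, ?_⟩
  unfold Cm
  rw [ev_mul, ev_mul (Q (i + 1))⁻¹]
  have h1 : ev (Q' (i + 1))⁻¹ (ev (G i * R' (i + 1)) x) - ev (Q (i + 1))⁻¹ (ev (G i * R (i + 1)) x) =
      (ev (Q' (i + 1))⁻¹ (ev (G i * R' (i + 1)) x) - ev (Q (i + 1))⁻¹ (ev (G i * R' (i + 1)) x)) +
        (ev (Q (i + 1))⁻¹ (ev (G i * R' (i + 1)) x) - ev (Q (i + 1))⁻¹ (ev (G i * R (i + 1)) x)) := by ring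
  rw [h1]
  refine (abs_add_le _ _).trans ?_
  have h2 := dφ (i + 1) hi (ev (G i * R' (i + 1)) x)
  have h3 := lipφ (i + 1) hi (ev (G i * R' (i + 1)) x) (ev (G i * R (i + 1)) x)
  have h4 : (1 + 2 * (q * d)) * |ev (G i * R' (i + 1)) x - ev (G i * R (i + 1)) x| ≤ 2 * (16 * (q * e)) :=
    mul_le_mul (by linarith) hE (abs_nonneg _) (by norm_num)
  nlinarith

end Pool.Agent.helper90.DH
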