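import Pool.Agent.helper65.DH.MaxP

/-!
# The maximum principle of the direct closing (helper5, section 3), abstract form

`MPC`: `F : UD → ℂ` holomorphic, `b T : UD → UD` holomorphic (`T ∈ ι`), weights `c T > 0` (for `u_*`), `e T ≥ 0` (for `u_in`). If `‖F'‖ (1 - ‖w‖²) ≥ d` where `‖w‖ ≤ r`,
`ε ≤ ‖F w‖ ≤ R`, `u_* w ≤ 1`, and `log (R / ‖F 0‖) > log (R/ε) (u_in 0 / θ + u_* 0 + (2/d²) (1 - ‖F 0‖²) / log (1/(1-r²)))` then some `w`, `‖w‖ ≤ r`, has `‖F w‖ = ε`, `u_in w < θ`.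
-/

set_option autoImplicit false

open Complex Metric Set Filter Topology
open HY (UD T S)

noncomputable section

namespace MaxP

/-- the weighted sum of the functions `- log ‖b T w‖`. -/
def usum (ι : Finset ℕ) (b : ℕ → ℂ → ℂ) (c : ℕ → ℝ) (w : ℂ) : ℝ := ∑ T ∈ ι, c T * (-Real.log ‖b T w‖)

theorem usum_nonneg (ι : Finset ℕ) (b : ℕ → ℂ → ℂ) (c : ℕ → ℝ) (w : ℂ) (hw : w ∈ UD)
    (hb : ∀ T ∈ ι, MapsTo (b T) UD UD) (hc : ∀ T ∈ ι, 0 ≤ c T) : 0 ≤ usum ι b c w := by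
  apply Finset.sum_nonneg
  intro T hT
  apply mul_nonneg (hc T hT)
  have h1 : ‖b T w‖ < 1 := by simpa [UD] using hb T hT hw
  have := Real.log_nonpos (norm_nonneg (b T w)) h1.le
  linarith

theorem usum_harmonic (ι : Finset ℕ) (b : ℕ → ℂ → ℂ) (c : ℕ → ℝ) (w : ℂ) (hw : w ∈ UD)
    (hb : ∀ T ∈ ι, DifferentiableOn ℂ (b T) UD) (hne : ∀ T ∈ ι, b T w ≠ 0) :
    InnerProductSpace.HarmonicAt (usum ι b c) w := by
  have hUDo : IsOpen UD := isOpen_ball
  classical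
  induction ι using Finset.induction_on with
  | empty =>
    have : usum ∅ b c = fun _ => (0 : ℝ) := by
      funext z; simp [usum]
    rw [this]
    exact InnerProductSpace.harmonicAt_const 0
  | insert a s ha ih =>
    have h1 : usum (insert a s) b c = (-(c a)) • (fun z => Real.log ‖b a z‖) + usum s b c := by
      funext z
      simp only [usum, Finset.sum_insert ha, Pi.add_apply, Pi.smul_apply, smul_eq_mul]
      ring
    rw [h1]
    apply InnerProductSpace.HarmonicAt.add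
    · apply InnerProductSpace.HarmonicAt.const_smul
      apply AnalyticAt.harmonicAt_log_norm
      · exact ((hb a (Finset.mem_insert_self a s)).analyticOnNhd hUDo) w hw
      · exact hne a (Finset.mem_insert_self a s)
    · exact ih (fun T hT => hb T (Finset.mem_insert_of_mem hT)) (fun T hT => hne T (Finset.mem_insert_of_mem hT))

/-- the product which replaces `exp (- u_*)`. -/
def pr (ι : Finset ℕ) (b : ℕ → ℂ → ℂ) (c : ℕ → ℝ) (w : ℂ) : ℝ := ∏ T ∈ ι, ‖b T w‖ ^ c T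

theorem pr_ne (ι : Finset ℕ) (b : ℕ → ℂ → ℂ) (c : ℕ → ℝ) (w : ℂ) (hc : ∀ T ∈ ι, 0 < c T) (h : pr ι b c w ≠ 0) :
    ∀ T ∈ ι, b T w ≠ 0 := by
  intro T hT h0
  apply h
  apply Finset.prod_eq_zero hT
  rw [h0, norm_zero, Real.zero_rpow (hc T hT).ne']

theorem pr_eq (ι : Finset ℕ) (b : ℕ → ℂ → ℂ) (c : ℕ → ℝ) (w : ℂ) (h : ∀ T ∈ ι, b T w ≠ 0) :
    pr ι b c w = Real.exp (-usum ι b c w) := by
  rw [pr, usum, ← Finset.sum_neg_distrib, Real.exp_sum]
  apply Finset.prod_congr rfl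
  intro T hT
  have hpos : 0 < ‖b T w‖ := norm_pos_iff.mpr (h T hT)
  rw [Real.rpow_def_of_pos hpos]
  congr 1
  ring

theorem pr_cont (ι : Finset ℕ) (b : ℕ → ℂ → ℂ) (c : ℕ → ℝ) (hb : ∀ T ∈ ι, DifferentiableOn ℂ (b T) UD)
    (hc : ∀ T ∈ ι, 0 < c T) : ContinuousOn (pr ι b c) UD := by
  unfold pr
  apply continuousOn_finsetProd
  intro T hT
  apply ContinuousOn.rpow_const
  · exact (hb T hT).continuousOn.norm
  · intro x _
    right
    exact (hc T hT).le

theorem MPC (ι : Finset ℕ) (b : ℕ → ℂ → ℂ) (c e : ℕ → ℝ) (F : ℂ → ℂ) (ε R r θ d : ℝ)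
    (hF : DifferentiableOn ℂ F UD) (hb : ∀ T ∈ ι, DifferentiableOn ℂ (b T) UD) (hbm : ∀ T ∈ ι, MapsTo (b T) UD UD)
    (hc : ∀ T ∈ ι, 0 < c T) (he : ∀ T ∈ ι, 0 ≤ e T)
    (hε : 0 < ε) (hεR : ε < R) (hR : R ≤ 1) (hr0 : 0 < r) (hr1 : r < 1) (hθ : 0 < θ) (hd : 0 < d)
    (hder : ∀ w : ℂ, ‖w‖ ≤ r → ε ≤ ‖F w‖ → ‖F w‖ ≤ R → (∀ T ∈ ι, b T w ≠ 0) → usum ι b c w ≤ 1 →
      d ≤ ‖deriv F w‖ * (1 - ‖w‖ ^ 2))
    (h0 : ∀ T ∈ ι, b T 0 ≠ 0) (hF0 : ε ≤ ‖F 0‖) (hF0R : ‖F 0‖ ≤ R)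
    (hmain : Real.log (R / ε) * (usum ι b e 0 / θ + usum ι b c 0 + (2 / d ^ 2) * (1 - ‖F 0‖ ^ 2) / Real.log (1 / (1 - r ^ 2)))
      < Real.log (R / ‖F 0‖)) :
    ∃ w : ℂ, ‖w‖ ≤ r ∧ ‖F w‖ = ε ∧ (∀ T ∈ ι, b T w ≠ 0) ∧ usum ι b e w < θ := by
  by_contra hcon
  have hUDo : IsOpen UD := isOpen_ball
  have hR0 : 0 < R := lt_trans hε hεR
  set L := Real.log (R / ε) with hL
  have hLpos : 0 < L := Real.log_pos (by rw [one_lt_div hε]; exact hεR)
  set ℓ := Real.log (1 / (1 - r ^ 2)) with hℓ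
  have hr2 : 0 < 1 - r ^ 2 := by nlinarith
  have hℓpos : 0 < ℓ := Real.log_pos (by rw [one_lt_div hr2]; nlinarith)
  set A : ℝ := 2 / d ^ 2 with hA
  have hApos : 0 < A := by positivity
  set κ := L / ℓ with hκ
  have hκpos : 0 < κ := div_pos hLpos hℓpos
  -- the functions
  set H : ℂ → ℝ := fun z => Real.log R - Real.log ‖F z‖ - L * (usum ι b e z / θ + usum ι b c z) with hH
  set g : ℂ → ℝ := fun z => H z - κ * (A * (1 - ‖F z‖ ^ 2) + Real.log (1 / (1 - ‖z‖ ^ 2))) with hg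
  have hinUD : ∀ w : ℂ, ‖w‖ ≤ r → w ∈ UD := by
    intro w hw
    have : ‖w‖ < 1 := by linarith
    simpa [UD] using this
  -- the compact set
  set Q : Set ℂ := closedBall 0 r ∩ {w | ε ≤ ‖F w‖ ∧ ‖F w‖ ≤ R ∧ Real.exp (-1) ≤ pr ι b c w} with hQ
  have hsub : closedBall (0 : ℂ) r ⊆ UD := by
    intro w hw
    exact hinUD w (by simpa using hw)
  have hFn : ContinuousOn (fun w => ‖F w‖) (closedBall 0 r) := (hF.continuousOn.mono hsub).norm
  have hprc : ContinuousOn (pr ι b c) (closedBall 0 r) := (pr_cont ι b c hb hc).mono hsub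
  have hQc : IsCompact Q := by
    have hcl : IsClosed Q := by
      have h1 : IsClosed (closedBall (0 : ℂ) r ∩ (fun w => ‖F w‖) ⁻¹' Icc ε R) :=
        hFn.preimage_isClosed_of_isClosed isClosed_closedBall isClosed_Icc
      have h2 : IsClosed (closedBall (0 : ℂ) r ∩ (pr ι b c) ⁻¹' Ici (Real.exp (-1))) :=
        hprc.preimage_isClosed_of_isClosed isClosed_closedBall isClosed_Ici
      have h3 : Q = (closedBall (0 : ℂ) r ∩ (fun w => ‖F w‖) ⁻¹' Icc ε R) ∩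
          (closedBall (0 : ℂ) r ∩ (pr ι b c) ⁻¹' Ici (Real.exp (-1))) := by
        ext w
        simp only [hQ, mem_inter_iff, mem_ofPred_eq, mem_preimage, mem_Icc, mem_Ici]
        tauto
      rw [h3]
      exact h1.inter h2
    exact (isCompact_closedBall (0 : ℂ) r).of_isClosed_subset hcl (inter_subset_left)
  -- properties on Q
  have hQr : ∀ w ∈ Q, ‖w‖ ≤ r := fun w hw => by simpa using hw.1
  have hQne : ∀ w ∈ Q, ∀ T ∈ ι, b T w ≠ 0 := by
    intro w hw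
    apply pr_ne ι b c w hc
    have : 0 < pr ι b c w := lt_of_lt_of_le (Real.exp_pos _) hw.2.2.2
    exact this.ne'
  have hQu : ∀ w ∈ Q, usum ι b c w ≤ 1 := by
    intro w hw
    have h1 := hw.2.2.2
    rw [pr_eq ι b c w (hQne w hw), Real.exp_le_exp] at h1
    linarith
  have hu0 : ∀ w ∈ Q, 0 ≤ usum ι b c w := fun w hw =>
    usum_nonneg ι b c w (hinUD w (hQr w hw)) hbm (fun T hT => (hc T hT).le)
  have hue0 : ∀ w ∈ Q, 0 ≤ usum ι b e w := fun w hw =>
    usum_nonneg ι b e w (hinUD w (hQr w hw)) hbm he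
  have hlogz : ∀ w : ℂ, ‖w‖ ≤ r → 0 ≤ Real.log (1 / (1 - ‖w‖ ^ 2)) := by
    intro w hw
    have h1 : 0 < 1 - ‖w‖ ^ 2 := by nlinarith [norm_nonneg w]
    apply Real.log_nonneg
    rw [le_div_iff₀ h1]
    nlinarith [norm_nonneg w]
  have hS0 : ∀ w ∈ Q, 0 ≤ A * (1 - ‖F w‖ ^ 2) := by
    intro w hw
    have h1 : ‖F w‖ ≤ 1 := le_trans hw.2.2.1 hR
    apply mul_nonneg hApos.le
    nlinarith [norm_nonneg (F w)]
  have hFlog : ∀ w ∈ Q, Real.log R - Real.log ‖F w‖ ≤ L := by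
    intro w hw
    have h1 : Real.log ε ≤ Real.log ‖F w‖ := Real.log_le_log hε hw.2.1
    have h2 : L = Real.log R - Real.log ε := by rw [hL, Real.log_div hR0.ne' hε.ne']
    rw [h2]
    linarith
  -- 0 in Q
  have hF0pos : 0 < ‖F 0‖ := lt_of_lt_of_le hε hF0
  have hg0 : 0 < g 0 := by
    have h1 : Real.log (R / ‖F 0‖) = Real.log R - Real.log ‖F 0‖ := Real.log_div hR0.ne' hF0pos.ne'
    rw [h1] at hmain
    simp only [hg, hH, norm_zero]
    have h2 : Real.log (1 / (1 - (0 : ℝ) ^ 2)) = 0 := by norm_num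
    rw [h2, add_zero]
    have h3 : κ * (A * (1 - ‖F 0‖ ^ 2)) = L * (A * (1 - ‖F 0‖ ^ 2) / ℓ) := by
      rw [hκ]; field_simp
    rw [h3]
    nlinarith [hmain]
  have h0pos : 0 ≤ usum ι b e 0 := usum_nonneg ι b e 0 (hinUD 0 (by simpa using hr0.le)) hbm he
  have h0Q : (0 : ℂ) ∈ Q := by
    refine ⟨by simpa using hr0.le, hF0, hF0R, ?_⟩
    rw [pr_eq ι b c 0 h0, Real.exp_le_exp]
    have h1 : Real.log (R / ‖F 0‖) ≤ L := by
      rw [hL]
      apply Real.log_le_log (div_pos hR0 hF0pos)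
      exact div_le_div_of_nonneg_left hR0.le hε hF0
    have h2 : L * (usum ι b e 0 / θ + usum ι b c 0 + A * (1 - ‖F 0‖ ^ 2) / ℓ) < L * 1 := by
      rw [mul_one]; exact lt_of_lt_of_le hmain h1
    have h3 := lt_of_mul_lt_mul_left h2 hLpos.le
    have h4 : 0 ≤ usum ι b e 0 / θ := div_nonneg h0pos hθ.le
    have h5 : 0 ≤ A * (1 - ‖F 0‖ ^ 2) / ℓ := by
      apply div_nonneg _ hℓpos.le
      apply mul_nonneg hApos.le
      have : ‖F 0‖ ≤ 1 := le_trans hF0R hR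
      nlinarith [norm_nonneg (F 0)]
    linarith
  -- continuity of g on Q
  have huc : ∀ c' : ℕ → ℝ, ContinuousOn (usum ι b c') Q := by
    intro c' w hw
    have h1 := usum_harmonic ι b c' w (hinUD w (hQr w hw)) hb (hQne w hw)
    exact (h1.1.continuousAt).continuousWithinAt
  have hgc : ContinuousOn g Q := by
    have hFQ : ContinuousOn (fun w => ‖F w‖) Q := hFn.mono inter_subset_left
    have c1 : ContinuousOn (fun w => Real.log ‖F w‖) Q :=
      hFQ.log (fun w hw => (lt_of_lt_of_le hε hw.2.1).ne')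
    have c2 : ContinuousOn (fun w : ℂ => Real.log (1 / (1 - ‖w‖ ^ 2))) Q := by
      have c3 : ContinuousOn (fun w : ℂ => 1 - ‖w‖ ^ 2) Q := by fun_prop
      have hne : ∀ w ∈ Q, 1 - ‖w‖ ^ 2 ≠ 0 := by
        intro w hw
        have := hQr w hw
        nlinarith [norm_nonneg w]
      apply ContinuousOn.log
      · exact continuousOn_const.div c3 hne
      · intro w hw
        exact div_ne_zero one_ne_zero (hne w hw)
    have c4 : ContinuousOn H Q := by
      apply ContinuousOn.sub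
      · exact continuousOn_const.sub c1
      · exact continuousOn_const.mul (((huc e).div_const θ).add (huc c))
    exact c4.sub (continuousOn_const.mul ((continuousOn_const.mul (continuousOn_const.sub (hFQ.pow 2))).add c2))
  obtain ⟨w, hwQ, hwmax⟩ := hQc.exists_isMaxOn ⟨0, h0Q⟩ hgc
  have hgw : 0 < g w := lt_of_lt_of_le hg0 (hwmax h0Q)
  have hwUD := hinUD w (hQr w hwQ)
  have hFwpos : 0 < ‖F w‖ := lt_of_lt_of_le hε hwQ.2.1
  have hlogw := hlogz w (hQr w hwQ)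
  have hSw := hS0 w hwQ
  have huw := hu0 w hwQ
  have huew := hue0 w hwQ
  have hdivθ : 0 ≤ usum ι b e w / θ := div_nonneg huew hθ.le
  have hκt : 0 ≤ κ * (A * (1 - ‖F w‖ ^ 2) + Real.log (1 / (1 - ‖w‖ ^ 2))) :=
    mul_nonneg hκpos.le (add_nonneg hSw hlogw)
  have hFl := hFlog w hwQ
  have hgw' : 0 < Real.log R - Real.log ‖F w‖ - L * (usum ι b e w / θ + usum ι b c w) -
      κ * (A * (1 - ‖F w‖ ^ 2) + Real.log (1 / (1 - ‖w‖ ^ 2))) := hgw
  -- interior
  have hs1 : ‖w‖ < r := by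
    rcases lt_or_eq_of_le (hQr w hwQ) with h | h
    · exact h
    · exfalso
      have h1 : κ * ℓ = L := by rw [hκ]; field_simp
      have h2 : Real.log (1 / (1 - ‖w‖ ^ 2)) = ℓ := by rw [h]
      rw [h2] at hgw'
      have h3 : 0 ≤ κ * (A * (1 - ‖F w‖ ^ 2)) := mul_nonneg hκpos.le hSw
      have h4 : 0 ≤ L * (usum ι b e w / θ + usum ι b c w) := mul_nonneg hLpos.le (add_nonneg hdivθ huw)
      have h5 : κ * (A * (1 - ‖F w‖ ^ 2) + ℓ) = κ * (A * (1 - ‖F w‖ ^ 2)) + L := by rw [mul_add, h1]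
      rw [h5] at hgw'
      linarith
  have hs2 : ε < ‖F w‖ := by
    rcases lt_or_eq_of_le hwQ.2.1 with h | h
    · exact h
    · exfalso
      apply hcon
      refine ⟨w, hs1.le, h.symm, hQne w hwQ, ?_⟩
      by_contra hge
      rw [not_lt] at hge
      have h3 : 1 ≤ usum ι b e w / θ := by rwa [le_div_iff₀ hθ, one_mul]
      have h4 : L * 1 ≤ L * (usum ι b e w / θ + usum ι b c w) := mul_le_mul_of_nonneg_left (by linarith) hLpos.le
      linarith
  have hs3 : ‖F w‖ < R := by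
    rcases lt_or_eq_of_le hwQ.2.2.1 with h | h
    · exact h
    · exfalso
      rw [h] at hgw'
      have h4 : 0 ≤ L * (usum ι b e w / θ + usum ι b c w) := mul_nonneg hLpos.le (add_nonneg hdivθ huw)
      rw [h] at hκt
      linarith
  have hs4 : Real.exp (-1) < pr ι b c w := by
    rcases lt_or_eq_of_le hwQ.2.2.2 with h | h
    · exact h
    · exfalso
      rw [pr_eq ι b c w (hQne w hwQ)] at h
      have h1 : -1 = -usum ι b c w := Real.exp_injective h
      have h2 : usum ι b c w = 1 := by linarith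
      have h4 : L * 1 ≤ L * (usum ι b e w / θ + usum ι b c w) := mul_le_mul_of_nonneg_left (by linarith) hLpos.le
      linarith
  -- local maximum
  have hnh := hUDo.mem_nhds hwUD
  have hFca : ContinuousAt (fun w => ‖F w‖) w := (hF.continuousOn.continuousAt hnh).norm
  have hprca : ContinuousAt (pr ι b c) w := (pr_cont ι b c hb hc).continuousAt hnh
  have hloc : IsLocalMax g w := by
    have e1 : ∀ᶠ z in 𝓝 w, ‖z‖ < r := continuous_norm.continuousAt.eventually (gt_mem_nhds hs1)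
    have e2 : ∀ᶠ z in 𝓝 w, ε < ‖F z‖ := hFca.eventually (lt_mem_nhds hs2)
    have e3 : ∀ᶠ z in 𝓝 w, ‖F z‖ < R := hFca.eventually (gt_mem_nhds hs3)
    have e4 : ∀ᶠ z in 𝓝 w, Real.exp (-1) < pr ι b c z := hprca.eventually (lt_mem_nhds hs4)
    filter_upwards [e1, e2, e3, e4] with z h1 h2 h3 h4
    exact hwmax ⟨by simpa using h1.le, h2.le, h3.le, h4.le⟩
  -- harmonic
  have hHarm : InnerProductSpace.HarmonicAt H w := by
    have k1 : InnerProductSpace.HarmonicAt (fun z => Real.log ‖F z‖) w :=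
      AnalyticAt.harmonicAt_log_norm ((hF.analyticOnNhd hUDo) w hwUD) (norm_pos_iff.mp hFwpos)
    have k2 := usum_harmonic ι b e w hwUD hb (hQne w hwQ)
    have k3 := usum_harmonic ι b c w hwUD hb (hQne w hwQ)
    have k4 : H = (fun _ => Real.log R) + (-1 : ℝ) • (fun z => Real.log ‖F z‖) + ((-(L / θ)) • usum ι b e + (-L) • usum ι b c) := by
      funext z
      simp only [hH, Pi.add_apply, Pi.smul_apply, smul_eq_mul]
      ring
    rw [k4]
    exact ((InnerProductSpace.harmonicAt_const _).add (k1.const_smul)).add ((k2.const_smul).add (k3.const_smul))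
  refine NoMax F H w A κ hwUD hF hHarm hκpos ?_ hloc
  have h1 := hder w hs1.le hs2.le hs3.le (hQne w hwQ) (hQu w hwQ)
  have h2 : d ^ 2 ≤ (‖deriv F w‖ * (1 - ‖w‖ ^ 2)) ^ 2 := by
    apply pow_le_pow_left₀ hd.le h1
  have h3 : A * d ^ 2 = 2 := by rw [hA]; field_simp
  calc (2 : ℝ) = A * d ^ 2 := h3.symm
    _ ≤ _ := mul_le_mul_of_nonneg_left h2 hApos.le

end MaxP
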