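import Pool.Agent.helper52.HY.Spec
import Pool.Agent.helper25.HY.MOB

/-!
# Interior maximum lemma for the maximum principle of the direct closing (helper5, section 3)

`NoMax`: `F` holomorphic on the unit disc, `H` harmonic near `w`, `κ > 0`, `2 ≤ A (‖F' w‖ (1 - ‖w‖²))²`: the function
`H z - κ (A (1 - ‖F z‖²) + log (1 / (1 - ‖z‖²)))` has no local maximum at `w`.
-/

set_option autoImplicit false

open Complex Metric Set Filter Topology
open HY (UD T S)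

noncomputable section

namespace MaxP

theorem real_ineq (x : ℝ) (h0 : 0 < x) (h1 : x < 1 / 2) : Real.log (1 / (1 - x)) < 2 * x := by
  have h2 : 0 < 1 - x := by linarith
  rw [Real.log_div one_ne_zero h2.ne', Real.log_one, zero_sub]
  have h3 : 1 - 1 / (1 - x) ≤ Real.log (1 - x) := by
    have := Real.one_sub_inv_le_log_of_pos h2
    simpa [one_div] using this
  have h4 : 1 / (1 - x) - 1 < 2 * x := by
    rw [div_sub_one h2.ne', div_lt_iff₀ h2]
    nlinarith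
  linarith

/-- lower bound of `‖G u‖ ^ 2` on the circle by the real part of a holomorphic function. -/
theorem sq_ge (g0 g1 u d : ℂ) (δ : ℝ) (hu : ‖u‖ = δ) :
    (2 * (starRingEnd ℂ) g0 * (g0 + u * d) + 2 * (δ : ℂ) ^ 2 * ((starRingEnd ℂ) g1 * d) -
      (‖g0‖ : ℂ) ^ 2 - (δ : ℂ) ^ 2 * (‖g1‖ : ℂ) ^ 2).re ≤ ‖g0 + u * d‖ ^ 2 := by
  have h : 0 ≤ ‖(g0 + u * d) - (g0 + g1 * u)‖ ^ 2 := by positivity
  have e1 : ∀ z : ℂ, ‖z‖ ^ 2 = z.re * z.re + z.im * z.im := fun z => by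
    rw [← Complex.normSq_eq_norm_sq, Complex.normSq_apply]
  have hu2 : u.re * u.re + u.im * u.im = δ ^ 2 := by rw [← e1, hu]
  rw [e1] at h ⊢
  have c0 : ((‖g0‖ : ℂ) ^ 2).re = g0.re * g0.re + g0.im * g0.im := by
    rw [← e1, ← Complex.ofReal_pow, Complex.ofReal_re]
  have c1 : ((δ : ℂ) ^ 2 * (‖g1‖ : ℂ) ^ 2).re = δ ^ 2 * (g1.re * g1.re + g1.im * g1.im) := by
    rw [← e1, ← Complex.ofReal_pow, ← Complex.ofReal_pow, ← Complex.ofReal_mul, Complex.ofReal_re]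
  have c2 : (2 * (δ : ℂ) ^ 2 * ((starRingEnd ℂ) g1 * d)).re = 2 * δ ^ 2 * (g1.re * d.re + g1.im * d.im) := by
    have : (2 * (δ : ℂ) ^ 2 * ((starRingEnd ℂ) g1 * d)) = ((2 * δ ^ 2 : ℝ) : ℂ) * ((starRingEnd ℂ) g1 * d) := by
      push_cast; ring
    rw [this, Complex.re_ofReal_mul]
    simp [Complex.mul_re]
  have c3 : (2 * (starRingEnd ℂ) g0 * (g0 + u * d)).re =
      2 * (g0.re * (g0 + u * d).re + g0.im * (g0 + u * d).im) := by
    have : (2 * (starRingEnd ℂ) g0 * (g0 + u * d)) = ((2 : ℝ) : ℂ) * ((starRingEnd ℂ) g0 * (g0 + u * d)) := by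
      push_cast; ring
    rw [this, Complex.re_ofReal_mul]
    simp only [Complex.mul_re, Complex.conj_re, Complex.conj_im]
    ring
  rw [Complex.sub_re, Complex.sub_re, Complex.add_re, c0, c1, c2, c3]
  simp only [Complex.sub_re, Complex.sub_im, Complex.add_re, Complex.add_im, Complex.mul_re, Complex.mul_im] at h ⊢
  rw [← hu2]
  nlinarith [h]

theorem NoMax (F : ℂ → ℂ) (H : ℂ → ℝ) (w : ℂ) (A κ : ℝ) (hw : w ∈ UD) (hF : DifferentiableOn ℂ F UD)
    (hH : InnerProductSpace.HarmonicAt H w) (hκ : 0 < κ) (hA : 2 ≤ A * (‖deriv F w‖ * (1 - ‖w‖ ^ 2)) ^ 2) :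
    ¬ IsLocalMax (fun z => H z - κ * (A * (1 - ‖F z‖ ^ 2) + Real.log (1 / (1 - ‖z‖ ^ 2)))) w := by
  intro hmax
  have hw' : ‖w‖ < 1 := by simpa [UD] using hw
  have hM := HY.MOB w hw
  -- harmonic near w
  obtain ⟨R, hR, hball⟩ := Metric.isOpen_iff.mp (InnerProductSpace.isOpen_setOfPred_harmonicAt H) w hH
  obtain ⟨f, hf, hfH⟩ := InnerProductSpace.HarmonicOnNhd.exists_analyticOnNhd_ball_re_eq
    (f := H) (z := w) (R := R) (fun z hz => hball hz)
  have hApos : 0 < A := by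
    by_contra hneg
    rw [not_lt] at hneg
    have : A * (‖deriv F w‖ * (1 - ‖w‖ ^ 2)) ^ 2 ≤ 0 := mul_nonpos_of_nonpos_of_nonneg hneg (sq_nonneg _)
    linarith
  -- S w near 0
  have hSd : DifferentiableOn ℂ (S w) UD := hM.2.2.2.2.1
  have hS0 : S w 0 = w := hM.2.2.1
  have h0UD : (0 : ℂ) ∈ UD := by simp [UD]
  have hUDo : IsOpen UD := isOpen_ball
  have hScont : ContinuousAt (S w) 0 := (hSd 0 h0UD).differentiableAt (hUDo.mem_nhds h0UD) |>.continuousAt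
  have ev1 : ∀ᶠ u in 𝓝 (0 : ℂ), S w u ∈ ball w R := by
    apply hScont.eventually
    rw [hS0]
    exact ball_mem_nhds w hR
  have ev2 : ∀ᶠ u in 𝓝 (0 : ℂ), H (S w u) - κ * (A * (1 - ‖F (S w u)‖ ^ 2) + Real.log (1 / (1 - ‖S w u‖ ^ 2))) ≤
      H w - κ * (A * (1 - ‖F w‖ ^ 2) + Real.log (1 / (1 - ‖w‖ ^ 2))) := by
    have h1 : ∀ᶠ z in 𝓝 (S w 0), H z - κ * (A * (1 - ‖F z‖ ^ 2) + Real.log (1 / (1 - ‖z‖ ^ 2))) ≤
      H w - κ * (A * (1 - ‖F w‖ ^ 2) + Real.log (1 / (1 - ‖w‖ ^ 2))) := by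
      rw [hS0]; exact hmax
    exact hScont.eventually h1
  obtain ⟨ε, hε, hev⟩ := Metric.eventually_nhds_iff_ball.mp (ev1.and ev2)
  -- choice of the radius
  obtain ⟨δ, hδ0, hδε, hδ2⟩ : ∃ δ : ℝ, 0 < δ ∧ δ < ε ∧ δ < 1 / 2 :=
    ⟨min ε (1 / 2) / 2, by positivity, by
      have := min_le_left ε (1 / 2 : ℝ)
      have h3 : 0 < min ε (1 / 2) := by positivity
      linarith, by
      have := min_le_right ε (1 / 2 : ℝ)
      have h3 : 0 < min ε (1 / 2) := by positivity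
      linarith⟩
  have hsub : ∀ u : ℂ, ‖u‖ ≤ δ → u ∈ UD := by
    intro u hu
    have : ‖u‖ < 1 := by linarith
    simpa [UD] using this
  -- the function G
  set G : ℂ → ℂ := fun u => F (S w u) with hG
  have hGd : DifferentiableOn ℂ G UD := hF.comp hSd (fun u hu => (hM.1 u hu).2.1)
  have hG0 : G 0 = F w := by simp [hG, hS0]
  have hG1 : ‖deriv G 0‖ = ‖deriv F w‖ * (1 - ‖w‖ ^ 2) := by
    have h1 : HasDerivAt (S w) (1 - (‖w‖ : ℂ) ^ 2) 0 := by
      rw [← hM.2.2.2.2.2.2.2.2.2.2.1]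
      exact ((hSd 0 h0UD).differentiableAt (hUDo.mem_nhds h0UD)).hasDerivAt
    have h2 : HasDerivAt F (deriv F w) (S w 0) := by
      rw [hS0]
      exact ((hF w hw).differentiableAt (hUDo.mem_nhds hw)).hasDerivAt
    have h3 : HasDerivAt G (deriv F w * (1 - (‖w‖ : ℂ) ^ 2)) 0 := h2.comp (0 : ℂ) h1
    rw [h3.deriv, norm_mul]
    congr 1
    have h4 : (1 - (‖w‖ : ℂ) ^ 2) = ((1 - ‖w‖ ^ 2 : ℝ) : ℂ) := by push_cast; ring
    rw [h4, Complex.norm_real, Real.norm_eq_abs, abs_of_pos]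
    nlinarith [norm_nonneg w]
  have hdd : DifferentiableOn ℂ (dslope G 0) UD :=
    (Complex.differentiableOn_dslope (hUDo.mem_nhds h0UD)).mpr hGd
  have hGs : ∀ u, G u = G 0 + u * dslope G 0 u := by
    intro u
    have := sub_smul_dslope G 0 u
    simp only [sub_zero, smul_eq_mul] at this
    rw [this]; ring
  have hds0 : dslope G 0 0 = deriv G 0 := dslope_same G 0
  -- the holomorphic function
  set Ψ : ℂ → ℂ := fun u => f (S w u) + (κ * A : ℝ) * (2 * (starRingEnd ℂ) (G 0) * G u +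
      2 * (δ : ℂ) ^ 2 * ((starRingEnd ℂ) (deriv G 0) * dslope G 0 u) - (‖G 0‖ : ℂ) ^ 2 -
      (δ : ℂ) ^ 2 * (‖deriv G 0‖ : ℂ) ^ 2) - 2 * (κ : ℂ) * Complex.log (1 + (starRingEnd ℂ) w * u) with hΨ
  have hconj : ∀ u : ℂ, ‖u‖ ≤ δ → ‖(starRingEnd ℂ) w * u‖ < 1 := by
    intro u hu
    rw [norm_mul, Complex.norm_conj]
    nlinarith [norm_nonneg w, norm_nonneg u]
  have hslit : ∀ u : ℂ, ‖u‖ ≤ δ → 1 + (starRingEnd ℂ) w * u ∈ slitPlane := by
    intro u hu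
    exact Complex.mem_slitPlane_of_norm_lt_one (hconj u hu)
  have hεδ : ∀ u : ℂ, ‖u‖ ≤ δ → u ∈ ball (0 : ℂ) ε := by
    intro u hu
    have : ‖u‖ < ε := by linarith
    simpa using this
  have hΨd : ∀ u : ℂ, ‖u‖ ≤ δ → DifferentiableAt ℂ Ψ u := by
    intro u hu
    have hu' := hsub u hu
    have hn := hUDo.mem_nhds hu'
    have a1 : DifferentiableAt ℂ (S w) u := (hSd u hu').differentiableAt hn
    have a2 : DifferentiableAt ℂ f (S w u) := (hf _ (hev u (hεδ u hu)).1).differentiableAt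
    have a3 : DifferentiableAt ℂ (fun u => f (S w u)) u := DifferentiableAt.comp u a2 a1
    have a4 : DifferentiableAt ℂ G u := (hGd u hu').differentiableAt hn
    have a5 : DifferentiableAt ℂ (dslope G 0) u := (hdd u hu').differentiableAt hn
    have a6 : DifferentiableAt ℂ (fun u : ℂ => Complex.log (1 + (starRingEnd ℂ) w * u)) u :=
      DifferentiableAt.clog (by fun_prop) (hslit u hu)
    rw [hΨ]
    fun_prop
  have hΨc : DiffContOnCl ℂ (fun u => Complex.exp (Ψ u)) (ball 0 δ) := by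
    apply DifferentiableOn.diffContOnCl
    intro u hu
    have hu' : ‖u‖ ≤ δ := by
      have := closure_ball_subset_closedBall hu
      simpa using this
    exact (hΨd u hu').cexp.differentiableWithinAt
  set B : ℝ := H w + κ * A * ‖F w‖ ^ 2 + κ * Real.log (1 / (1 - δ ^ 2)) with hB
  have hbd : ∀ u : ℂ, ‖u‖ = δ → (Ψ u).re ≤ B := by
    intro u hu
    have hu' : ‖u‖ ≤ δ := hu.le
    have huU := hsub u hu'
    have h1 := (hev u (hεδ u hu')).2
    have h2 : (f (S w u)).re = H (S w u) := hfH (hev u (hεδ u hu')).1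
    have h3 := sq_ge (G 0) (deriv G 0) u (dslope G 0 u) δ hu
    rw [← hGs u] at h3
    -- the log term
    have h4 : 1 - ‖S w u‖ ^ 2 = (1 - ‖w‖ ^ 2) * (1 - δ ^ 2) / ‖1 + (starRingEnd ℂ) w * u‖ ^ 2 := by
      have hnw : (-w) ∈ UD := by simpa [UD] using hw'
      have h5 := (HY.MOB (-w) hnw).2.2.2.2.2.2.2.1 u huU
      have h6 : T (-w) u = S w u := by
        simp [HY.T, HY.S]
      rw [h6, norm_neg, hu] at h5
      rw [h5]
      simp
    have hpos1 : 0 < 1 - ‖w‖ ^ 2 := by nlinarith [norm_nonneg w]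
    have hpos2 : 0 < 1 - δ ^ 2 := by nlinarith
    have hpos3 : 0 < ‖1 + (starRingEnd ℂ) w * u‖ := by
      rw [norm_pos_iff]
      exact Complex.slitPlane_ne_zero (hslit u hu')
    have h7 : Real.log (1 / (1 - ‖S w u‖ ^ 2)) = Real.log (1 / (1 - ‖w‖ ^ 2)) + Real.log (1 / (1 - δ ^ 2)) +
        2 * Real.log ‖1 + (starRingEnd ℂ) w * u‖ := by
      rw [h4, one_div, one_div, one_div, Real.log_inv, Real.log_inv, Real.log_inv,
        Real.log_div (mul_pos hpos1 hpos2).ne' (pow_pos hpos3 2).ne', Real.log_mul hpos1.ne' hpos2.ne', Real.log_pow]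
      push_cast
      ring
    have h8 : (Complex.log (1 + (starRingEnd ℂ) w * u)).re = Real.log ‖1 + (starRingEnd ℂ) w * u‖ := Complex.log_re _
    have h9 : (Ψ u).re = H (S w u) + κ * A * (2 * (starRingEnd ℂ) (G 0) * G u +
      2 * (δ : ℂ) ^ 2 * ((starRingEnd ℂ) (deriv G 0) * dslope G 0 u) - (‖G 0‖ : ℂ) ^ 2 -
      (δ : ℂ) ^ 2 * (‖deriv G 0‖ : ℂ) ^ 2).re - 2 * κ * Real.log ‖1 + (starRingEnd ℂ) w * u‖ := by
      rw [hΨ]
      simp only [Complex.sub_re, Complex.add_re]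
      rw [Complex.re_ofReal_mul, h2]
      have : (2 * (κ : ℂ) * Complex.log (1 + (starRingEnd ℂ) w * u)).re = 2 * κ * Real.log ‖1 + (starRingEnd ℂ) w * u‖ := by
        have h10 : (2 * (κ : ℂ)) = ((2 * κ : ℝ) : ℂ) := by push_cast; ring
        rw [h10, Complex.re_ofReal_mul, h8]
      rw [this]
      simp only [Complex.sub_re, Complex.add_re]
    have h11 : κ * A * (2 * (starRingEnd ℂ) (G 0) * G u +
      2 * (δ : ℂ) ^ 2 * ((starRingEnd ℂ) (deriv G 0) * dslope G 0 u) - (‖G 0‖ : ℂ) ^ 2 -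
      (δ : ℂ) ^ 2 * (‖deriv G 0‖ : ℂ) ^ 2).re ≤ κ * A * ‖G u‖ ^ 2 :=
      mul_le_mul_of_nonneg_left h3 (mul_pos hκ hApos).le
    rw [h9, hB]
    rw [h7] at h1
    have hGu : G u = F (S w u) := rfl
    rw [hGu] at h11 ⊢
    nlinarith [h1, h11]
  have hfr : ∀ z ∈ frontier (ball (0 : ℂ) δ), ‖Complex.exp (Ψ z)‖ ≤ Real.exp B := by
    intro z hz
    rw [frontier_ball (0 : ℂ) hδ0.ne'] at hz
    have hz' : ‖z‖ = δ := by simpa using hz
    rw [Complex.norm_exp]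
    exact Real.exp_le_exp.mpr (hbd z hz')
  have hmaxm := Complex.norm_le_of_forall_mem_frontier_norm_le isBounded_ball hΨc hfr
    (subset_closure (mem_ball_self hδ0) : (0 : ℂ) ∈ closure (ball (0 : ℂ) δ))
  rw [Complex.norm_exp, Real.exp_le_exp] at hmaxm
  -- value at 0
  have hΨ0 : (Ψ 0).re = H w + κ * A * (‖F w‖ ^ 2 + δ ^ 2 * ‖deriv G 0‖ ^ 2) := by
    have h2 : (f w).re = H w := hfH (mem_ball_self hR)
    have e0 : (starRingEnd ℂ) (G 0) * G 0 = ((‖G 0‖ ^ 2 : ℝ) : ℂ) := by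
      rw [← Complex.normSq_eq_norm_sq, ← Complex.normSq_eq_conj_mul_self]
    have e1 : (starRingEnd ℂ) (deriv G 0) * deriv G 0 = ((‖deriv G 0‖ ^ 2 : ℝ) : ℂ) := by
      rw [← Complex.normSq_eq_norm_sq, ← Complex.normSq_eq_conj_mul_self]
    have e2 : Ψ 0 = f w + ((κ * A * (‖F w‖ ^ 2 + δ ^ 2 * ‖deriv G 0‖ ^ 2) : ℝ) : ℂ) := by
      rw [hΨ]
      simp only [hS0, mul_zero, add_zero, Complex.log_one, sub_zero, hds0]
      rw [mul_assoc 2 ((starRingEnd ℂ) (G 0)) (G 0), e0, e1, hG0]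
      push_cast
      ring
    rw [e2, Complex.add_re, Complex.ofReal_re, h2]
  rw [hΨ0, hB] at hmaxm
  have hlog := real_ineq (δ ^ 2) (by positivity) (by nlinarith)
  rw [hG1] at hmaxm
  set X := (‖deriv F w‖ * (1 - ‖w‖ ^ 2)) ^ 2 with hX
  have h20 : κ * A * (δ ^ 2 * X) ≤ κ * Real.log (1 / (1 - δ ^ 2)) := by nlinarith [hmaxm]
  have h21 : A * (δ ^ 2 * X) ≤ Real.log (1 / (1 - δ ^ 2)) := by
    have h22 : κ * (A * (δ ^ 2 * X)) ≤ κ * Real.log (1 / (1 - δ ^ 2)) := by linarith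
    exact le_of_mul_le_mul_left h22 hκ
  have h23 : 2 * δ ^ 2 ≤ A * (δ ^ 2 * X) := by
    have : δ ^ 2 * 2 ≤ δ ^ 2 * (A * X) := mul_le_mul_of_nonneg_left hA (by positivity)
    nlinarith [this]
  linarith

end MaxP
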