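import Pool.Agent.helper51.HY.BRH
import Pool.Agent.helper25.HY.MOB
import Pool.Agent.helper46.HY.KAP
import Pool.Agent.helper38.V3.KO0

/-!
# One step of TUB (helper5, section 2)

`KK n s` is the hyperbolic derivative of `x ↦ x ^ n` at a point of modulus `s`.
-/

set_option autoImplicit false

open Complex Metric Set Filter Topology
open HY (UD T S hd RM fz)

noncomputable section

namespace TUBs

/-- the hyperbolic derivative of `x ↦ x ^ n` at a point of modulus `s`. -/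
def KK (n : ℕ) (s : ℝ) : ℝ := n * s ^ (n - 1) * (1 - s ^ 2) / (1 - s ^ (2 * n))

theorem geom (n : ℕ) (s : ℝ) : (∑ j ∈ Finset.range n, s ^ (2 * j)) * (1 - s ^ 2) = 1 - s ^ (2 * n) := by
  induction n with
  | zero => simp
  | succ n ih =>
    rw [Finset.sum_range_succ, add_mul, ih]
    have : 2 * (n + 1) = 2 * n + 2 := by ring
    rw [this, pow_add]
    ring

theorem geom_pos (n : ℕ) (s : ℝ) (hn : 1 ≤ n) : 1 ≤ ∑ j ∈ Finset.range n, s ^ (2 * j) := by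
  have h1 : (s : ℝ) ^ (2 * 0) ≤ ∑ j ∈ Finset.range n, s ^ (2 * j) := by
    apply Finset.single_le_sum (f := fun j => s ^ (2 * j))
    · intro j _
      rw [pow_mul]; positivity
    · simp; omega
  simpa using h1

theorem KK_eq (n : ℕ) (s : ℝ) (hn : 1 ≤ n) (h0 : 0 ≤ s) (h1 : s < 1) :
    KK n s = n * s ^ (n - 1) / ∑ j ∈ Finset.range n, s ^ (2 * j) := by
  have h2 : 0 < 1 - s ^ 2 := by nlinarith
  have h3 := geom_pos n s hn
  unfold KK
  rw [← geom, mul_div_mul_right _ _ h2.ne']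

theorem pair (a b : ℕ) (s s' : ℝ) (h0 : 0 ≤ s) (hss : s ≤ s') (h1 : s' ≤ 1) :
    s ^ (a + b) * (s' ^ (2 * a) + s' ^ (2 * b)) ≤ s' ^ (a + b) * (s ^ (2 * a) + s ^ (2 * b)) := by
  wlog hab : a ≤ b with H
  · have := H b a s s' h0 hss h1 (by omega)
    rw [add_comm b a, add_comm (s' ^ (2 * b)), add_comm (s ^ (2 * b))] at this
    exact this
  obtain ⟨d, rfl⟩ := Nat.exists_eq_add_of_le hab
  have e : ∀ x y : ℝ, x ^ (a + (a + d)) * (y ^ (2 * a) + y ^ (2 * (a + d))) =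
      (x ^ a) ^ 2 * (y ^ a) ^ 2 * (x ^ d * (1 + (y ^ d) ^ 2)) := by
    intro x y
    have e1 : a + (a + d) = a * 2 + d := by ring
    have e2 : 2 * a = a * 2 := by ring
    have e3 : 2 * (a + d) = a * 2 + d * 2 := by ring
    rw [e1, e2, e3, pow_add, pow_add, pow_mul, pow_mul, pow_mul]
    ring
  rw [e s s', e s' s, mul_comm ((s' ^ a) ^ 2) ((s ^ a) ^ 2)]
  apply mul_le_mul_of_nonneg_left _ (by positivity)
  have hs' : 0 ≤ s' := le_trans h0 hss
  have h2 : s ^ d ≤ s' ^ d := pow_le_pow_left₀ h0 hss d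
  have h3 : s ^ d * s' ^ d ≤ 1 := by
    have h4 : s' ^ d ≤ 1 := pow_le_one₀ hs' h1
    have h5 : s ^ d ≤ 1 := le_trans h2 h4
    have h6 : 0 ≤ s' ^ d := pow_nonneg hs' d
    nlinarith
  nlinarith [mul_nonneg (sub_nonneg.mpr h2) (sub_nonneg.mpr h3)]

theorem KK_mono (n : ℕ) (s s' : ℝ) (hn : 1 ≤ n) (h0 : 0 ≤ s) (hss : s ≤ s') (h1 : s' < 1) : KK n s ≤ KK n s' := by
  rw [KK_eq n s hn h0 (lt_of_le_of_lt hss h1), KK_eq n s' hn (le_trans h0 hss) h1]
  have g1 := geom_pos n s hn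
  have g2 := geom_pos n s' hn
  rw [div_le_div_iff₀ (by linarith) (by linarith)]
  have key : s ^ (n - 1) * ∑ j ∈ Finset.range n, s' ^ (2 * j) ≤ s' ^ (n - 1) * ∑ j ∈ Finset.range n, s ^ (2 * j) := by
    have r : ∀ x : ℝ, ∑ j ∈ Finset.range n, x ^ (2 * (n - 1 - j)) = ∑ j ∈ Finset.range n, x ^ (2 * j) := by
      intro x
      exact Finset.sum_range_reflect (fun j => x ^ (2 * j)) n
    have t : ∀ x y : ℝ, x ^ (n - 1) * (2 * ∑ j ∈ Finset.range n, y ^ (2 * j)) =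
        ∑ j ∈ Finset.range n, x ^ (j + (n - 1 - j)) * (y ^ (2 * j) + y ^ (2 * (n - 1 - j))) := by
      intro x y
      have h2 : 2 * ∑ j ∈ Finset.range n, y ^ (2 * j) =
          ∑ j ∈ Finset.range n, (y ^ (2 * j) + y ^ (2 * (n - 1 - j))) := by
        rw [Finset.sum_add_distrib, r y]; ring
      rw [h2, Finset.mul_sum]
      apply Finset.sum_congr rfl
      intro j hj
      have : j + (n - 1 - j) = n - 1 := by
        have := Finset.mem_range.mp hj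
        omega
      rw [this]
    have h3 : s ^ (n - 1) * (2 * ∑ j ∈ Finset.range n, s' ^ (2 * j)) ≤ s' ^ (n - 1) * (2 * ∑ j ∈ Finset.range n, s ^ (2 * j)) := by
      rw [t, t]
      apply Finset.sum_le_sum
      intro j _
      exact pair j (n - 1 - j) s s' h0 hss h1.le
    linarith
  have hn0 : (0 : ℝ) ≤ n := Nat.cast_nonneg n
  nlinarith [mul_le_mul_of_nonneg_left key hn0]

theorem KK_ge_pow (n : ℕ) (s : ℝ) (hn : 1 ≤ n) (h0 : 0 ≤ s) (h1 : s < 1) : s ^ (n - 1) ≤ KK n s := by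
  rw [KK_eq n s hn h0 h1]
  have g1 := geom_pos n s hn
  rw [le_div_iff₀ (by linarith)]
  have h2 : ∑ j ∈ Finset.range n, s ^ (2 * j) ≤ n := by
    calc ∑ j ∈ Finset.range n, s ^ (2 * j) ≤ ∑ _j ∈ Finset.range n, (1 : ℝ) := by
          apply Finset.sum_le_sum
          intro j _
          exact pow_le_one₀ h0 h1.le
      _ = n := by simp
  have h3 : 0 ≤ s ^ (n - 1) := pow_nonneg h0 _
  nlinarith

theorem KK_nonneg (n : ℕ) (s : ℝ) (hn : 1 ≤ n) (h0 : 0 ≤ s) (h1 : s < 1) : 0 ≤ KK n s :=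
  le_trans (pow_nonneg h0 _) (KK_ge_pow n s hn h0 h1)

theorem KK_le_one (n : ℕ) (s : ℝ) (hn : 1 ≤ n) (h0 : 0 ≤ s) (h1 : s < 1) : KK n s ≤ 1 := by
  rw [KK_eq n s hn h0 h1]
  have g1 := geom_pos n s hn
  rw [div_le_one (by linarith)]
  have r : ∑ j ∈ Finset.range n, s ^ (2 * (n - 1 - j)) = ∑ j ∈ Finset.range n, s ^ (2 * j) :=
    Finset.sum_range_reflect (fun j => s ^ (2 * j)) n
  have h2 : (n : ℝ) * (2 * s ^ (n - 1)) = ∑ j ∈ Finset.range n, 2 * (s ^ j * s ^ (n - 1 - j)) := by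
    have : ∀ j ∈ Finset.range n, 2 * (s ^ j * s ^ (n - 1 - j)) = 2 * s ^ (n - 1) := by
      intro j hj
      have h3 : j + (n - 1 - j) = n - 1 := by
        have := Finset.mem_range.mp hj
        omega
      rw [← pow_add, h3]
    rw [Finset.sum_congr rfl this]
    simp
  have h4 : ∑ j ∈ Finset.range n, 2 * (s ^ j * s ^ (n - 1 - j)) ≤
      ∑ j ∈ Finset.range n, (s ^ (2 * j) + s ^ (2 * (n - 1 - j))) := by
    apply Finset.sum_le_sum
    intro j _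
    have e1 : s ^ (2 * j) = (s ^ j) ^ 2 := by rw [mul_comm, pow_mul]
    have e2 : s ^ (2 * (n - 1 - j)) = (s ^ (n - 1 - j)) ^ 2 := by rw [mul_comm, pow_mul]
    rw [e1, e2]
    nlinarith [sq_nonneg (s ^ j - s ^ (n - 1 - j))]
  rw [Finset.sum_add_distrib, r] at h4
  nlinarith

theorem KK_ge_exp (n : ℕ) (s : ℝ) (hn : 1 ≤ n) (h0 : 0 < s) (h1 : s < 1) :
    Real.exp (-(2 * n ^ 2 * (Real.log s) ^ 2)) ≤ KK n s := by
  have hn1 : (1 : ℝ) ≤ n := by exact_mod_cast hn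
  have hlog : Real.log s < 0 := Real.log_neg h0 h1
  rcases le_or_gt (1 / 2) s with hs | hs
  · have h2 := HY.KAP n s hn hs h1
    have h3 : 0 < 1 - s ^ (2 * n) := by
      have : s ^ (2 * n) < 1 := pow_lt_one₀ h0.le h1 (by omega)
      linarith
    have h4 : Real.exp (-(2 * n ^ 2 * (1 - s) ^ 2)) ≤ KK n s := by
      unfold KK
      rw [le_div_iff₀ h3, Real.exp_neg, inv_mul_le_iff₀ (Real.exp_pos _)]
      exact h2
    refine le_trans (Real.exp_le_exp.mpr ?_) h4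
    have h5 : 1 - s ≤ -Real.log s := by
      have := Real.log_le_sub_one_of_pos h0
      linarith
    have h6 : (1 - s) ^ 2 ≤ (Real.log s) ^ 2 := by
      have : 0 ≤ 1 - s := by linarith
      nlinarith
    have h7 : 2 * (n : ℝ) ^ 2 * (1 - s) ^ 2 ≤ 2 * n ^ 2 * (Real.log s) ^ 2 :=
      mul_le_mul_of_nonneg_left h6 (by positivity)
    linarith
  · refine le_trans ?_ (KK_ge_pow n s hn h0.le h1)
    have h2 : s ^ (n - 1) = Real.exp ((n - 1 : ℕ) * Real.log s) := by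
      rw [Real.exp_nat_mul, Real.exp_log h0]
    rw [h2]
    apply Real.exp_le_exp.mpr
    have h3 : Real.log s ≤ -(1 / 2) := by
      have h4 : Real.log s ≤ Real.log (1 / 2) := Real.log_le_log h0 hs.le
      have h5 : Real.log (1 / 2 : ℝ) = -Real.log 2 := by
        rw [one_div, Real.log_inv]
      have h6 := Real.log_two_gt_d9
      rw [h5] at h4
      linarith
    have h7 : ((n - 1 : ℕ) : ℝ) = n - 1 := by
      rw [Nat.cast_sub hn]; simp
    rw [h7]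
    set g := -Real.log s with hg
    have hlg : Real.log s = -g := by rw [hg]; ring
    rw [hlg]
    have hg2 : 1 / 2 ≤ g := by rw [hg]; linarith
    have h8 : (n - 1) * g ≤ 2 * n ^ 2 * g ^ 2 := by
      have h9 : (n : ℝ) - 1 ≤ 2 * n ^ 2 * g := by nlinarith
      have h10 := mul_le_mul_of_nonneg_right h9 (by linarith : (0 : ℝ) ≤ g)
      nlinarith
    nlinarith

/-! ## The step -/

theorem conj_mul_norm (a : ℂ) : (starRingEnd ℂ) a * a = ((‖a‖ ^ 2 : ℝ) : ℂ) := by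
  rw [← Complex.normSq_eq_norm_sq, ← Complex.normSq_eq_conj_mul_self]

/-- derivative of `S q` at a point `u` with `S q u = 0`. -/
theorem S_deriv_zero (q : ℂ) (hq : ‖q‖ < 1) : HasDerivAt (S q) (1 / ((1 - ‖q‖ ^ 2 : ℝ) : ℂ)) (-q) := by
  have hpos : 0 < 1 - ‖q‖ ^ 2 := by nlinarith [norm_nonneg q]
  have hd : (1 + (starRingEnd ℂ) q * (-q)) = ((1 - ‖q‖ ^ 2 : ℝ) : ℂ) := by
    have := conj_mul_norm q
    rw [mul_neg, this]; push_cast; ring
  have hne : (1 + (starRingEnd ℂ) q * (-q)) ≠ 0 := by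
    rw [hd]; exact_mod_cast hpos.ne'
  have h1 : HasDerivAt (fun x : ℂ => x + q) 1 (-q) := (hasDerivAt_id _).add_const q
  have h2 : HasDerivAt (fun x : ℂ => 1 + (starRingEnd ℂ) q * x) ((starRingEnd ℂ) q) (-q) := by
    have := ((hasDerivAt_id (-q)).const_mul ((starRingEnd ℂ) q)).const_add 1
    simpa using this
  have h3 := h1.div h2 hne
  have h4 : (1 * (1 + (starRingEnd ℂ) q * (-q)) - (-q + q) * (starRingEnd ℂ) q) / (1 + (starRingEnd ℂ) q * (-q)) ^ 2 =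
      1 / ((1 - ‖q‖ ^ 2 : ℝ) : ℂ) := by
    rw [hd] at *
    field_simp
    ring
  rw [h4] at h3
  exact h3

/-- ONE STEP. `X'` univalent on the disc, `z^n + c = X' 0`: there is a univalent `X` with `X 0 = z`, `f ∘ X = X' ∘ m`, `m : UD → UD` holomorphic, `m 0 = 0`. If `c` is not a value of `X'` then `m = id`; otherwise
`‖m' 0‖ = KK n ‖y₀‖` and `‖y₀‖` is at least the coordinate of `z` in every simply connected domain `Ψ(UD)`, `Ψ 0 = 0`, which contains the preimage of `X'(UD)`. -/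
theorem step (hRMI : HY.RMI_stmt) (hLR : MPS.LR_stmt) (n : ℕ) (c : ℂ) (hn : 2 ≤ n) (X' : ℂ → ℂ)
    (hd : DifferentiableOn ℂ X' UD) (hi : InjOn X' UD) (z : ℂ) (hz : fz n c z = X' 0) :
    ∃ X m : ℂ → ℂ, DifferentiableOn ℂ X UD ∧ InjOn X UD ∧ X 0 = z ∧ DifferentiableOn ℂ m UD ∧ MapsTo m UD UD ∧ m 0 = 0 ∧
      (∀ y ∈ UD, fz n c (X y) = X' (m y)) ∧
      (((∀ y ∈ UD, X' y ≠ c) ∧ ∀ y, m y = y) ∨
        ∃ q ∈ UD, X' q = c ∧ ∃ y₀ ∈ UD, ‖deriv m 0‖ = KK n ‖y₀‖ ∧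
          ∀ (W : Set ℂ) (Ψ : ℂ → ℂ), RM W 0 Ψ → (∀ y ∈ UD, X y ∈ W) → ∀ x ∈ UD, Ψ x = z → ‖x‖ ≤ ‖y₀‖) := by
  have hUDo : IsOpen UD := isOpen_ball
  have h0UD : (0 : ℂ) ∈ UD := by simp [UD]
  by_cases hc : ∀ y ∈ UD, X' y ≠ c
  · -- no obstacle
    have hne : ∀ w ∈ UD, X' w - c ≠ 0 := fun w hw => sub_ne_zero.mpr (hc w hw)
    obtain ⟨G, hG1, hG2, hG3⟩ := hLR n UD (fun w => X' w - c) 0 z (by omega) hUDo (convex_ball 0 1)
      (hd.sub_const c) hne h0UD (by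
        have : z ^ n + c = X' 0 := hz
        rw [← this]; ring)
    refine ⟨G, fun y => y, hG1, ?_, hG2, differentiableOn_id, fun y hy => hy, rfl, ?_, Or.inl ⟨hc, fun y => rfl⟩⟩
    · intro x hx y hy hxy
      apply hi hx hy
      have h1 := hG3 x hx
      have h2 := hG3 y hy
      rw [hxy] at h1
      have h3 : X' x - c = X' y - c := by
        rw [← h1, ← h2]
      exact sub_left_inj.mp h3
    · intro y hy
      show G y ^ n + c = X' y
      rw [hG3 y hy]; ring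
  · -- obstacle
    simp only [not_forall, not_not] at hc
    obtain ⟨q, hq, hqc⟩ := hc
    have hMq := HY.MOB q hq
    have hqn : ‖q‖ < 1 := by simpa [UD] using hq
    set φ : ℂ → ℂ := fun x => X' (S q x) with hφ
    have hSq : ∀ x ∈ UD, S q x ∈ UD := fun x hx => (hMq.1 x hx).2.1
    have hRM : RM (X' '' UD) c φ := by
      refine ⟨hd.comp hMq.2.2.2.2.1 hSq, ?_, ?_, ?_⟩
      · intro x hx y hy hxy
        exact hMq.2.2.2.2.2.2.1 hx hy (hi (hSq x hx) (hSq y hy) hxy)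
      · ext w
        constructor
        · rintro ⟨x, hx, rfl⟩
          exact ⟨S q x, hSq x hx, rfl⟩
        · rintro ⟨x, hx, rfl⟩
          refine ⟨T q x, (hMq.1 x hx).1, ?_⟩
          show X' (S q (T q x)) = X' x
          rw [(hMq.1 x hx).2.2.1]
      · show X' (S q 0) = c
        rw [hMq.2.2.1, hqc]
    obtain ⟨ψ, hψ, hψr⟩ := hRMI n c (X' '' UD) φ hn hRM
    have hzin : z ∈ {z | fz n c z ∈ X' '' UD} := by
      show fz n c z ∈ X' '' UD
      rw [hz]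
      exact ⟨0, h0UD, rfl⟩
    rw [← hψ.img] at hzin
    obtain ⟨y₀, hy₀, hy₀z⟩ := hzin
    have hMy := HY.MOB y₀ hy₀
    have hy₀n : ‖y₀‖ < 1 := by simpa [UD] using hy₀
    have hSy : ∀ x ∈ UD, S y₀ x ∈ UD := fun x hx => (hMy.1 x hx).2.1
    have hpow : ∀ x ∈ UD, x ^ n ∈ UD := by
      intro x hx
      have : ‖x‖ < 1 := by simpa [UD] using hx
      have h2 : ‖x ^ n‖ < 1 := by
        rw [norm_pow]; exact pow_lt_one₀ (norm_nonneg x) this (by omega)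
      simpa [UD] using h2
    -- S q (y₀ ^ n) = 0
    have hS0 : S q (y₀ ^ n) = 0 := by
      apply hi (hSq _ (hpow _ hy₀)) h0UD
      have h1 := hψr y₀ hy₀
      rw [hy₀z, hz] at h1
      exact h1.symm
    have hy₀q : y₀ ^ n = -q := by
      have h1 := (hMq.1 _ (hpow _ hy₀)).2.2.2
      rw [hS0] at h1
      rw [← h1]
      simp [HY.T]
    set m : ℂ → ℂ := fun y => S q ((S y₀ y) ^ n) with hm
    have hmd : DifferentiableOn ℂ m UD := by
      apply hMq.2.2.2.2.1.comp ((hMy.2.2.2.2.1).pow n)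
      intro x hx
      exact hpow _ (hSy x hx)
    refine ⟨fun y => ψ (S y₀ y), m, hψ.dif.comp hMy.2.2.2.2.1 hSy, ?_, ?_, hmd, ?_, ?_, ?_, Or.inr ⟨q, hq, hqc, y₀, hy₀, ?_, ?_⟩⟩
    · intro x hx y hy hxy
      exact hMy.2.2.2.2.2.2.1 hx hy (hψ.inj (hSy x hx) (hSy y hy) hxy)
    · show ψ (S y₀ 0) = z
      rw [hMy.2.2.1, hy₀z]
    · intro x hx
      exact hSq _ (hpow _ (hSy x hx))
    · show S q ((S y₀ 0) ^ n) = 0
      rw [hMy.2.2.1, hS0]
    · intro y hy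
      exact hψr _ (hSy y hy)
    · -- derivative
      have d1 : HasDerivAt (S y₀) (((1 - ‖y₀‖ ^ 2 : ℝ) : ℂ)) 0 := by
        have h1 := ((hMy.2.2.2.2.1 0 h0UD).differentiableAt (hUDo.mem_nhds h0UD)).hasDerivAt
        rw [hMy.2.2.2.2.2.2.2.2.2.2.1] at h1
        have h2 : (1 - (‖y₀‖ : ℂ) ^ 2) = ((1 - ‖y₀‖ ^ 2 : ℝ) : ℂ) := by push_cast; ring
        rw [h2] at h1
        exact h1
      have d2 : HasDerivAt (fun y => (S y₀ y) ^ n) ((n : ℂ) * y₀ ^ (n - 1) * ((1 - ‖y₀‖ ^ 2 : ℝ) : ℂ)) 0 := by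
        have := d1.fun_pow n
        rw [hMy.2.2.1] at this
        exact this
      have d3 : HasDerivAt (S q) (1 / ((1 - ‖q‖ ^ 2 : ℝ) : ℂ)) ((fun y => (S y₀ y) ^ n) 0) := by
        show HasDerivAt (S q) (1 / ((1 - ‖q‖ ^ 2 : ℝ) : ℂ)) ((S y₀ 0) ^ n)
        rw [hMy.2.2.1, hy₀q]
        exact S_deriv_zero q hqn
      have d4' : HasDerivAt (S q ∘ fun y => (S y₀ y) ^ n)
          (1 / ((1 - ‖q‖ ^ 2 : ℝ) : ℂ) * ((n : ℂ) * y₀ ^ (n - 1) * ((1 - ‖y₀‖ ^ 2 : ℝ) : ℂ))) 0 :=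
        HasDerivAt.comp (0 : ℂ) d3 d2
      have d4 : HasDerivAt m (1 / ((1 - ‖q‖ ^ 2 : ℝ) : ℂ) * ((n : ℂ) * y₀ ^ (n - 1) * ((1 - ‖y₀‖ ^ 2 : ℝ) : ℂ))) 0 := d4'
      rw [d4.deriv, norm_mul, norm_div, norm_mul, norm_mul, norm_one, Complex.norm_real, Complex.norm_real,
        Complex.norm_natCast, norm_pow, Real.norm_eq_abs, Real.norm_eq_abs]
      have p1 : 0 < 1 - ‖q‖ ^ 2 := by nlinarith [norm_nonneg q]
      have p2 : 0 < 1 - ‖y₀‖ ^ 2 := by nlinarith [norm_nonneg y₀]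
      rw [abs_of_pos p1, abs_of_pos p2]
      have hqy : ‖q‖ ^ 2 = ‖y₀‖ ^ (2 * n) := by
        have h1 : ‖q‖ = ‖y₀‖ ^ n := by
          rw [← norm_pow, hy₀q, norm_neg]
        rw [h1, ← pow_mul, mul_comm n 2]
      unfold KK
      rw [hqy]
      ring
    · intro W Ψ hΨ hXW x hx hxz
      obtain ⟨χ, hχ1, hχ2, hχ3⟩ := HY.BRH_inv V3.KO0 hΨ
      have hψW : ∀ y ∈ UD, ψ y ∈ W := by
        intro y hy
        have h1 := hXW (T y₀ y) (hMy.1 y hy).1
        simp only at h1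
        rw [(hMy.1 y hy).2.2.1] at h1
        exact h1
      have hθd : DifferentiableOn ℂ (fun y => χ (ψ y)) (ball 0 1) := hχ3.comp hψ.dif hψW
      have hθm : MapsTo (fun y => χ (ψ y)) (ball 0 1) (closedBall 0 1) := fun y hy =>
        ball_subset_closedBall (hχ1 _ (hψW y hy)).1
      have hθ0 : (fun y => χ (ψ y)) 0 = 0 := by
        show χ (ψ 0) = 0
        have h00 : ψ 0 = Ψ 0 := by rw [hψ.val, hΨ.val]
        rw [h00]
        exact hχ2 0 h0UD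
      have h1 := Complex.norm_le_norm_of_mapsTo_ball hθd hθm hθ0 hy₀n
      have h2 : χ (ψ y₀) = x := by
        rw [hy₀z, ← hxz]
        exact hχ2 x hx
      have h3 : ‖χ (ψ y₀)‖ ≤ ‖y₀‖ := h1
      rw [h2] at h3
      exact h3

end TUBs
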