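import Pool.Agent.helper5.DH.Spec
import Pool.Agent.helper65.DH.TUBs

/-!
# Project dh:, module TUB (the tube)
-/

set_option autoImplicit false

open Complex Metric Set Filter Topology MeasureTheory
open Pool.Agent.helper98.ILF Pool.Agent.helper16.Multibrot
open HY (UD T S hd UN RM VV SG Orb fz)

noncomputable section

namespace DH

/-- the tube lemma with weights. `Y` univalent on the disc, `Y 0 = f^t p`. -/
theorem TUB_tube (hRMI : HY.RMI_stmt) (hLR : MPS.LR_stmt) (n : ℕ) (c : ℂ) (hn : 2 ≤ n) (t : ℕ) (Y : ℂ → ℂ)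
    (hYd : DifferentiableOn ℂ Y UD) (hYi : InjOn Y UD) (p : ℂ)
    (hp : (fz n c)^[t] p = Y 0) (R : Finset ℕ) (hR : ∀ i < t, (fz n c)^[t - i] 0 ∈ Y '' UD → i ∈ R)
    (W : ℕ → Set ℂ) (Ψ : ℕ → ℂ → ℂ) (hΨ : ∀ i < t, RM (W i) 0 (Ψ i))
    (hW : ∀ i < t, ∀ z : ℂ, (fz n c)^[t - i] z ∈ Y '' UD → z ∈ W i)
    (x : ℕ → ℂ) (hx : ∀ i < t, x i ∈ UD ∧ Ψ i (x i) = (fz n c)^[i] p) (hx1 : ∀ i, ‖x i‖ ≤ 1) :
    ∃ (X h : ℂ → ℂ), DifferentiableOn ℂ X UD ∧ InjOn X UD ∧ X 0 = p ∧ DifferentiableOn ℂ h UD ∧ MapsTo h UD UD ∧ h 0 = 0 ∧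
      (∀ y ∈ UD, (fz n c)^[t] (X y) = Y (h y)) ∧ (∏ i ∈ R, ‖x i‖) ^ (n - 1) ≤ ‖deriv h 0‖ := by
  classical
  have h0 : (0 : ℂ) ∈ UD := by simp [UD]
  have hUo : IsOpen UD := isOpen_ball
  have key : ∀ m ≤ t, ∃ (X h : ℂ → ℂ), DifferentiableOn ℂ X UD ∧ InjOn X UD ∧ X 0 = (fz n c)^[t - m] p ∧
      DifferentiableOn ℂ h UD ∧ MapsTo h UD UD ∧ h 0 = 0 ∧
      (∀ y ∈ UD, (fz n c)^[m] (X y) = Y (h y)) ∧ (∏ i ∈ R.filter (fun i => t - m ≤ i), ‖x i‖) ^ (n - 1) ≤ ‖deriv h 0‖ := by
    intro m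
    induction m with
    | zero =>
      intro _
      refine ⟨Y, id, hYd, hYi, by rw [Nat.sub_zero, hp], differentiableOn_id, fun y hy => hy, rfl, fun y _ => rfl, ?_⟩
      simp only [deriv_id, norm_one]
      apply pow_le_one₀ (Finset.prod_nonneg (fun i _ => norm_nonneg _))
      exact Finset.prod_le_one (fun i _ => norm_nonneg _) (fun i _ => hx1 i)
    | succ m ih =>
      intro hm
      obtain ⟨X, h, hXd, hXi, hX0, hhd, hhm, hh0, hrel, hlos⟩ := ih (by omega)
      set j := t - (m + 1) with hj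
      have hT1 : t - m = j + 1 := by omega
      have hpX : fz n c ((fz n c)^[j] p) = X 0 := by
        rw [hX0, hT1, Function.iterate_succ_apply']
      obtain ⟨X', g, hX'd, hX'i, hX'0, hgd, hgm, hg0, hgrel, hgl⟩ := TUBs.step hRMI hLR n c hn X hXd hXi _ hpX
      have hder : deriv (fun y => h (g y)) 0 = deriv h 0 * deriv g 0 := by
        have h1 : HasDerivAt h (deriv h 0) (g 0) := by
          rw [hg0]; exact (hhd.differentiableAt (hUo.mem_nhds h0)).hasDerivAt
        have h2 := (hgd.differentiableAt (hUo.mem_nhds h0)).hasDerivAt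
        exact (HasDerivAt.comp (0 : ℂ) h1 h2).deriv
      have hrel' : ∀ y ∈ UD, (fz n c)^[m + 1] (X' y) = Y (h (g y)) := by
        intro y hy
        rw [Function.iterate_succ_apply, hgrel y hy, hrel _ (hgm hy)]
      refine ⟨X', fun y => h (g y), hX'd, hX'i, hX'0, hhd.comp hgd hgm, fun y hy => hhm (hgm hy), ?_, hrel', ?_⟩
      · show h (g 0) = 0
        rw [hg0, hh0]
      · rw [hder, norm_mul]
        have hjt : j < t := by omega
        have htj : t - j = m + 1 := by omega
        have hni : j ∉ R.filter (fun i => t - m ≤ i) := by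
          rw [Finset.mem_filter]
          push Not
          intro _
          omega
        rcases hgl with ⟨hc, hid⟩ | ⟨q, hq, hXq, y₀, hy₀, hgk, hgW⟩
        · have hg1 : deriv g 0 = 1 := by
            have : g = fun y => y := funext hid
            rw [this]; simp
          rw [hg1, norm_one, mul_one]
          refine le_trans ?_ hlos
          apply pow_le_pow_left₀ (Finset.prod_nonneg (fun i _ => norm_nonneg _))
          by_cases hjR : j ∈ R
          · have hfe : R.filter (fun i => j ≤ i) = insert j (R.filter (fun i => t - m ≤ i)) := by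
              ext i
              simp only [Finset.mem_filter, Finset.mem_insert]
              constructor
              · rintro ⟨h1, h2⟩
                by_cases h3 : i = j
                · exact Or.inl h3
                · exact Or.inr ⟨h1, by omega⟩
              · rintro (h1 | ⟨h1, h2⟩)
                · exact ⟨h1 ▸ hjR, by omega⟩
                · exact ⟨h1, by omega⟩
            rw [hfe, Finset.prod_insert hni]
            have := Finset.prod_nonneg (s := R.filter (fun i => t - m ≤ i)) (fun i _ => norm_nonneg (x i))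
            nlinarith [hx1 j, norm_nonneg (x j)]
          · have hfe : R.filter (fun i => j ≤ i) = R.filter (fun i => t - m ≤ i) := by
              ext i
              simp only [Finset.mem_filter]
              constructor
              · rintro ⟨h1, h2⟩
                have h3 : i ≠ j := fun h => hjR (h ▸ h1)
                exact ⟨h1, by omega⟩
              · rintro ⟨h1, h2⟩
                exact ⟨h1, by omega⟩
            rw [hfe]
        · have hjR : j ∈ R := by
            apply hR j hjt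
            rw [htj, Function.iterate_succ_apply]
            have e1 : fz n c 0 = c := by
              unfold fz
              rw [zero_pow (by omega : n ≠ 0), zero_add]
            have e2 := hrel q hq
            rw [hXq] at e2
            rw [e1, e2]
            exact ⟨h q, hhm hq, rfl⟩
          have hxy : ‖x j‖ ≤ ‖y₀‖ := by
            apply hgW (W j) (Ψ j) (hΨ j hjt) _ (x j) (hx j hjt).1 (hx j hjt).2
            intro y hy
            apply hW j hjt
            rw [htj, hrel' y hy]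
            exact ⟨h (g y), hhm (hgm hy), rfl⟩
          have hy₀n : ‖y₀‖ < 1 := by simpa [UD] using hy₀
          have hk : ‖x j‖ ^ (n - 1) ≤ TUBs.KK n ‖y₀‖ :=
            le_trans (pow_le_pow_left₀ (norm_nonneg _) hxy _) (TUBs.KK_ge_pow n ‖y₀‖ (by omega) (norm_nonneg _) hy₀n)
          rw [hgk]
          have hfe : R.filter (fun i => j ≤ i) = insert j (R.filter (fun i => t - m ≤ i)) := by
            ext i
            simp only [Finset.mem_filter, Finset.mem_insert]
            constructor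
            · rintro ⟨h1, h2⟩
              by_cases h3 : i = j
              · exact Or.inl h3
              · exact Or.inr ⟨h1, by omega⟩
            · rintro (h1 | ⟨h1, h2⟩)
              · exact ⟨h1 ▸ hjR, by omega⟩
              · exact ⟨h1, by omega⟩
          rw [hfe, Finset.prod_insert hni, mul_pow, mul_comm]
          exact mul_le_mul hlos hk (pow_nonneg (norm_nonneg _) _) (norm_nonneg _)
  obtain ⟨X, h, hXd, hXi, hX0, hhd, hhm, hh0, hrel, hlos⟩ := key t le_rfl
  refine ⟨X, h, hXd, hXi, ?_, hhd, hhm, hh0, hrel, ?_⟩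
  · rw [hX0, Nat.sub_self]; rfl
  · have hfe : R.filter (fun i => t - t ≤ i) = R := by
      ext i
      simp
    rw [hfe] at hlos
    exact hlos

theorem TUB (hCOP : COP_stmt) (hBTP : BTP_stmt) (hMOB : HY.MOB_stmt) (hRMI : HY.RMI_stmt) (hLR : MPS.LR_stmt) : TUB_stmt := by
  intro n c Φ b hT k t p hp B w hB0 hB1 hw hF
  have h0 : (0 : ℂ) ∈ UD := by simp [UD]
  have hUo : IsOpen UD := isOpen_ball
  obtain ⟨-, hbt⟩ := hBTP n c Φ b hT
  obtain ⟨hch, hyv, -, hbtp⟩ := hbt k t p hp
  have hC := fun l => hCOP (VV n c l) 0 (Φ l) (hT.rm l)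
  have hco : ∀ l, ∀ z ∈ VV n c l, co (Φ l) z ∈ UD ∧ Φ l (co (Φ l) z) = z := fun l => (hC l).2.2.2.1
  have hph : ∀ l, ∀ x ∈ UD, Φ l x ∈ VV n c l ∧ co (Φ l) (Φ l x) = x := fun l => (hC l).2.2.2.2.1
  obtain ⟨-, -, -, hcc, hcc', hccd, -⟩ := hCOP _ _ _ hch
  set P : ℂ := ch Φ n c k t p w with hP
  set F₀ : ℂ := bt Φ n c k t p t w with hF₀
  have hBne : (B : ℂ) ≠ 0 := by exact_mod_cast hB0.ne'
  -- the centre
  set a : ℂ := F₀ / B with ha
  have hna : ‖a‖ = ‖F₀‖ / B := by
    rw [ha, norm_div, Complex.norm_real, Real.norm_eq_abs, abs_of_pos hB0]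
  have haU : a ∈ UD := by
    have : ‖a‖ < 1 := by rw [hna, div_lt_one hB0]; exact hF
    simpa [UD] using this
  have hM := hMOB a haU
  have hSm : ∀ x ∈ UD, S a x ∈ UD := fun x hx => (hM.1 x hx).2.1
  have hBS : ∀ x ∈ UD, ‖(B : ℂ) * S a x‖ < B := by
    intro x hx
    have h1 : ‖S a x‖ < 1 := by simpa [UD] using hSm x hx
    rw [norm_mul, Complex.norm_real, Real.norm_eq_abs, abs_of_pos hB0]
    nlinarith
  have hBS' : ∀ x ∈ UD, (B : ℂ) * S a x ∈ UD := by
    intro x hx
    have := lt_of_lt_of_le (hBS x hx) hB1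
    simpa [UD] using this
  set Y : ℂ → ℂ := fun x => Φ k ((B : ℂ) * S a x) with hY
  have hYd : DifferentiableOn ℂ Y UD := (hT.rm k).dif.comp (hM.2.2.2.2.1.const_mul (B : ℂ)) hBS'
  have hYi : InjOn Y UD := by
    intro x hx y hy hxy
    have h1 : (B : ℂ) * S a x = (B : ℂ) * S a y := (hT.rm k).inj (hBS' x hx) (hBS' y hy) hxy
    exact hM.2.2.2.2.2.2.1 hx hy (mul_left_cancel₀ hBne h1)
  have hYin : ∀ z ∈ Y '' UD, z ∈ VV n c k ∧ ‖co (Φ k) z‖ < B := by
    rintro z ⟨x, hx, rfl⟩
    have h1 := hph k _ (hBS' x hx)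
    refine ⟨h1.1, ?_⟩
    show ‖co (Φ k) (Φ k ((B : ℂ) * S a x))‖ < B
    rw [h1.2]
    exact hBS x hx
  have hF₀t := (hbtp t le_rfl).2.2.2 w hw
  have hY0 : (fz n c)^[t] P = Y 0 := by
    show (fz n c)^[t] P = Φ k ((B : ℂ) * S a 0)
    rw [hM.2.2.1, ha, mul_div_cancel₀ _ hBne]
    have := hF₀t
    rw [Nat.add_sub_cancel] at this
    exact this.symm
  have hVi : ∀ (z : ℂ) (i : ℕ), i ≤ t → (fz n c)^[t - i] z ∈ VV n c k → z ∈ VV n c (k + t - i) := by
    intro z i hi hz
    have h1 : ‖(fz n c)^[k] ((fz n c)^[t - i] z)‖ < 4 := hz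
    rw [← Function.iterate_add_apply] at h1
    show ‖(fz n c)^[k + t - i] z‖ < 4
    have : k + t - i = k + (t - i) := by omega
    rw [this]
    exact h1
  obtain ⟨X, h, hXd, hXi, hX0, hhd, hhm, hh0, hrel, hlos⟩ := TUB_tube hRMI hLR n c hT.hn t Y hYd hYi P hY0
    (REL Φ n c k t B) (by
      intro i hi hin
      unfold REL
      rw [Finset.mem_filter]
      exact ⟨Finset.mem_range.mpr hi, (hYin _ hin).2⟩)
    (fun i => VV n c (k + t - i)) (fun i => Φ (k + t - i)) (fun i _ => hT.rm _)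
    (fun i hi z hz => hVi z i hi.le (hYin _ hz).1) (fun i => if i < t then bt Φ n c k t p i w else 0)
    (by
      intro i hi
      simp only [hi, if_true]
      exact ⟨(hbtp i hi.le).2.1 hw, (hbtp i hi.le).2.2.2 w hw⟩)
    (by
      intro i
      by_cases hi : i < t
      · simp only [hi, if_true]
        have := (hbtp i hi.le).2.1 hw
        have h1 : ‖bt Φ n c k t p i w‖ < 1 := by simpa [UD] using this
        exact h1.le
      · simp only [hi, if_false]
        simp)
  have hXV : ∀ x ∈ UD, X x ∈ VV n c (k + t) := by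
    intro x hx
    have h1 := hVi (X x) 0 (Nat.zero_le t) (by
      rw [Nat.sub_zero, hrel x hx]
      exact (hYin _ ⟨h x, hhm hx, rfl⟩).1)
    simpa using h1
  have hbte : ∀ x ∈ UD, bt Φ n c k t p t (co (ch Φ n c k t p) (X x)) = (B : ℂ) * S a (h x) := by
    intro x hx
    have h1 := (hcc _ (hXV x hx)).2
    unfold bt
    rw [h1, hrel x hx, Nat.add_sub_cancel]
    exact (hph k _ (hBS' _ (hhm hx))).2
  refine ⟨fun x => co (ch Φ n c k t p) (X x), ⟨hccd.comp hXd hXV, ?_, ?_⟩, ?_, ?_, ?_⟩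
  · intro x hx y hy hxy
    apply hXi hx hy
    rw [← (hcc _ (hXV x hx)).2, ← (hcc _ (hXV y hy)).2]
    exact congrArg _ hxy
  · intro x hx
    exact (hcc _ (hXV x hx)).1
  · show co (ch Φ n c k t p) (X 0) = w
    rw [hX0]
    exact (hcc' w hw).2
  · intro x hx
    show ‖bt Φ n c k t p t (co (ch Φ n c k t p) (X x))‖ < B
    rw [hbte x hx]
    exact hBS _ (hhm hx)
  · -- derivative
    have hev : (fun x => bt Φ n c k t p t (co (ch Φ n c k t p) (X x))) =ᶠ[𝓝 0] fun x => (B : ℂ) * S a (h x) := by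
      filter_upwards [hUo.mem_nhds h0] with x hx
      exact hbte x hx
    have d1 : HasDerivAt (S a) (deriv (S a) 0) (h 0) := by
      rw [hh0]
      exact (hM.2.2.2.2.1.differentiableAt (hUo.mem_nhds h0)).hasDerivAt
    have d2 := (hhd.differentiableAt (hUo.mem_nhds h0)).hasDerivAt
    have d3 : HasDerivAt (fun x => (B : ℂ) * S a (h x)) ((B : ℂ) * (deriv (S a) 0 * deriv h 0)) 0 :=
      (HasDerivAt.comp (0 : ℂ) d1 d2).const_mul (B : ℂ)
    rw [hev.deriv_eq, d3.deriv, hM.2.2.2.2.2.2.2.2.2.2.1, norm_mul, norm_mul, Complex.norm_real, Real.norm_eq_abs,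
      abs_of_pos hB0]
    have e1 : (1 - (‖a‖ : ℂ) ^ 2) = ((1 - ‖a‖ ^ 2 : ℝ) : ℂ) := by push_cast; ring
    have e2 : 0 < 1 - ‖a‖ ^ 2 := by
      have : ‖a‖ < 1 := by simpa [UD] using haU
      nlinarith [norm_nonneg a]
    rw [e1, Complex.norm_real, Real.norm_eq_abs, abs_of_pos e2]
    have e3 : (B ^ 2 - ‖F₀‖ ^ 2) / B = B * (1 - ‖a‖ ^ 2) := by
      rw [hna]
      field_simp
    rw [e3, ← mul_assoc]
    have e4 : (∏ i ∈ REL Φ n c k t B, ‖bt Φ n c k t p i w‖) =
        ∏ i ∈ REL Φ n c k t B, ‖(fun i => if i < t then bt Φ n c k t p i w else 0) i‖ := by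
      apply Finset.prod_congr rfl
      intro i hi
      unfold REL at hi
      rw [Finset.mem_filter, Finset.mem_range] at hi
      simp only [hi.1, if_true]
    rw [e4]
    exact mul_le_mul_of_nonneg_left hlos (mul_nonneg hB0.le e2.le)

end DH
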